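import Pool.Agent.H68.MW.Inh2
import Pool.Agent.H53.MW.Anc

/-! # Inheritance: final statement -/

set_option autoImplicit false

namespace Pool.Agent.H68.MW

theorem inh {B : Type} [Fintype B] {τ : B → List B} {v : ℤ → B} {c : ℤ → ℤ} (hτ : Irred τ)
    (h : Img τ v v c)
    (hE : ∃ L₀ : ℕ, ∀ (x : ℤ) (n : ℕ), L₀ ≤ n → 2 * (n : ℤ) ≤ c (x + n) - c x) :
    ∃ P₀ : ℕ, ∀ P, P₀ ≤ P → ∃ K₀ : ℕ, ∀ K, K₀ ≤ K → ∃ H : ℕ,
      ∀ (α α' : ℤ) (M : ℕ) (e e' : ℤ) (n : ℕ),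
      BiF v α α' M → BiF v e e' n → Lift c (tl τ) α α' M e e' n → H ≤ M →
      (∃ q : ℕ, 0 < q ∧ q ≤ P ∧ Per v q (α - M + K) (α - K)) →
      ∃ q : ℕ, 0 < q ∧ q ≤ P ∧ Per v q (e - n + K) (e - K) := by
  refine inh_of hτ h hE ?_ ?_
  · obtain ⟨N, P, hanc⟩ := anc_end hτ
    exact ⟨N, P, fun π x r => hanc v v c h π x r⟩
  · obtain ⟨N, P, hanc⟩ := anc_end hτ.reverse
    refine ⟨N, P, ?_⟩
    have := hanc _ _ _ h.mirror
    rw [tl_reverse] at this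
    exact fun π x r => this π x r

end Pool.Agent.H68.MW
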