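import Pool.Agent.H68.MW.Img

/-! # MP_1fe246_co: shared definitions (two-sided words) -/

set_option autoImplicit false

namespace Pool.Agent.H68.MW

/-- factors of length `n` -/
def Fac {B : Type} (V : ℤ → B) (n : ℕ) : Set (List B) := {w | ∃ x : ℤ, w = win V x n}

/-- right special words of length `n` -/
def RS {B : Type} (V : ℤ → B) (n : ℕ) : Set (List B) :=
  {w | ∃ e e' : ℤ, w = win V (e - n) n ∧ w = win V (e' - n) n ∧ V e ≠ V e'}

/-- words of length `n` with two occurrences that differ on BOTH sides (`bi-forks`) -/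
def BF {B : Type} (V : ℤ → B) (n : ℕ) : Set (List B) :=
  {w | ∃ e e' : ℤ, w = win V (e - n) n ∧ w = win V (e' - n) n ∧ V e ≠ V e' ∧
      V (e - n - 1) ≠ V (e' - n - 1)}

/-- right special words of length `n` not having exactly one right special left extension -/
def Bad {B : Type} (V : ℤ → B) (n : ℕ) : Set (List B) :=
  {w | w ∈ RS V n ∧ ¬ ∃! a, a :: w ∈ RS V (n + 1)}

/-- `v[x..y)` has period `π` -/
def Per {B : Type} (v : ℤ → B) (π : ℕ) (x y : ℤ) : Prop := ∀ i : ℤ, x ≤ i → i + π < y → v i = v (i + π)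

/-- maximal run `v[l..r)` of period `π` -/
def MaxRun {B : Type} (v : ℤ → B) (π : ℕ) (l r : ℤ) : Prop :=
  0 < π ∧ l + π ≤ r ∧ Per v π l r ∧ v r ≠ v (r - π) ∧ v (l - 1) ≠ v (l - 1 + π)

/-- `w` has a period `≤ P` except for at most `K` letters at both ends -/
def App {B : Type} (K P : ℕ) (w : List B) : Prop :=
  ∃ π : ℕ, 0 < π ∧ π ≤ P ∧ ∀ i : ℕ, K ≤ i → i + π + K < w.length → w[i]? = w[i + π]?

/-- the two-sided extension of a one-sided word by a new letter `none` on the left -/
def twoSided {α : Type} (u : ℕ → α) : ℤ → Option α := fun i => if 0 ≤ i then some (u i.toNat) else none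

/-- number of right special words -/
noncomputable def rs {B : Type} (V : ℤ → B) (n : ℕ) : ℕ := (RS V n).ncard

/-- bi-fork: two occurrences (ending at `e`, `e'`) of a word of length `n`, with different letters
on both sides -/
def BiF {A : Type} (U : ℤ → A) (e e' : ℤ) (n : ℕ) : Prop :=
  (∀ i : ℕ, i < n → U (e - n + i) = U (e' - n + i)) ∧ U e ≠ U e' ∧ U (e - n - 1) ≠ U (e' - n - 1)

/-- `(e,e',n)` is the image of the bi-fork `(α,α',M)` -/
def Lift (c : ℤ → ℤ) (D : ℕ) (α α' : ℤ) (M : ℕ) (e e' : ℤ) (n : ℕ) : Prop :=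
  ∃ δ ε : ℕ, δ < D ∧ ε < D ∧ c α + δ = e ∧ c α' + δ = e' ∧ c (α - M) - ε = e - n ∧
    c (α' - M) - ε = e' - n

end Pool.Agent.H68.MW
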