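import Pool.Agent.H68.MW.Sync
import Pool.Agent.H68.MW.Defs

/-! # Lifting of bi-forks, images of periodic intervals -/

set_option autoImplicit false

namespace Pool.Agent.H68.MW

theorem Irred.reverse {B A : Type} [Fintype B] {θ : B → List A} (h : Irred θ) :
    Irred (fun b => (θ b).reverse) := by
  intro C _ g k hgk
  refine h C (fun b => (g b).reverse) (fun x => (k x).reverse) (fun b => ?_)
  have := congrArg List.reverse (hgk b)
  rw [List.reverse_reverse] at this
  rw [this, List.reverse_flatMap]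
  rfl

theorem tl_reverse {B A : Type} [Fintype B] (θ : B → List A) :
    tl (fun b => (θ b).reverse) = tl θ := by
  simp [tl]

section
variable {B A : Type} {θ : B → List A} {v : ℤ → B} {U : ℤ → A} {c : ℤ → ℤ}

/-- equal letters give equal increments of the cut function -/
theorem Img.cut_eq (h : Img θ v U c) {a b : ℤ} {k : ℕ} (hk : ∀ i : ℕ, i < k → v (a + i) = v (b + i)) :
    c (a + k) - c a = c (b + k) - c b := by
  induction k with
  | zero => simp
  | succ k ih =>
    have h1 := ih (fun i hi => hk i (by omega))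
    have h2 := h.step (a + k)
    have h3 := h.step (b + k)
    rw [hk k (by omega)] at h2
    have e1 : a + ((k + 1 : ℕ) : ℤ) = a + k + 1 := by push_cast; ring
    have e2 : b + ((k + 1 : ℕ) : ℤ) = b + k + 1 := by push_cast; ring
    rw [e1, e2]
    omega

/-- equal letters give equal images -/
theorem Img.val_eq (h : Img θ v U c) {a b : ℤ} {k : ℕ} (hk : ∀ i : ℕ, i < k → v (a + i) = v (b + i))
    (i : ℕ) (hi : c a + i < c (a + k)) : U (c a + i) = U (c b + i) := by
  obtain ⟨m, hm1, hm2⟩ := h.exists_block (c a + i)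
  have hma : a ≤ m := by
    have : c a < c (m + 1) := by omega
    have := h.strictMono.lt_iff_lt.1 this
    omega
  have hmk : m < a + k := h.strictMono.lt_iff_lt.1 (by omega)
  obtain ⟨j, rfl⟩ : ∃ j : ℕ, m = a + j := ⟨(m - a).toNat, by omega⟩
  have hj : j < k := by omega
  have h1 := h.cut_eq (a := a) (b := b) (k := j) (fun i hi => hk i (by omega))
  have h2 := h.step (a + j)
  have hv := hk j hj
  obtain ⟨r, hr⟩ : ∃ r : ℕ, c a + i = c (a + j) + r := ⟨(c a + i - c (a + j)).toNat, by omega⟩
  have hr2 : r < (θ (v (a + j))).length := by omega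
  have h3 := h.val (a + j) r hr2
  have h4 := h.val (b + j) r (by rw [← hv]; exact hr2)
  have e1 : c b + (i : ℤ) = c (b + j) + r := by omega
  rw [hr, e1, h3, h4]
  simp only [hv]

/-- images of periodic intervals are periodic -/
theorem Img.per_image (h : Img θ v U c) {π : ℕ} {x y : ℤ} (hper : Per v π x y) (hxy : x + π ≤ y) :
    ∃ q : ℕ, (q : ℤ) = c (x + π) - c x ∧ Per U q (c x) (c y) := by
  have hmono := h.strictMono.monotone (show x ≤ x + (π : ℤ) by omega)
  refine ⟨(c (x + π) - c x).toNat, by omega, ?_⟩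
  intro z hz1 hz2
  obtain ⟨k, hk⟩ : ∃ k : ℕ, y = x + π + k := ⟨(y - x - π).toNat, by omega⟩
  have hk2 : ∀ i : ℕ, i < k → v (x + i) = v (x + π + i) := by
    intro i hi
    have := hper (x + i) (by omega) (by omega)
    rw [this]
    congr 1
    ring
  have h1 := h.cut_eq hk2
  have h2 := h.val_eq hk2 (z - c x).toNat (by rw [← hk] at h1; omega)
  have e1 : c x + ((z - c x).toNat : ℤ) = z := by omega
  have e2 : c (x + π) + ((z - c x).toNat : ℤ) = z + ((c (x + π) - c x).toNat : ℤ) := by omega
  rw [e1, e2] at h2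
  exact h2

end

section
variable {B A : Type} [Fintype B] {θ : B → List A} {v : ℤ → B} {U : ℤ → A} {c : ℤ → ℤ}

/-- after a common cut the readings agree until `tl θ` before the end of the common word -/
theorem extR (hirr : Irred θ) (h : Img θ v U c) {e e' a a' : ℤ} {t : ℕ} (ha : c a = e - t)
    (ha' : c a' = e' - t) (hc : ∀ i : ℕ, i < t → U (e - t + i) = U (e' - t + i)) (i : ℕ)
    (hi : c (a + i) ≤ e - tl θ) : v (a + i) = v (a' + i) := by
  induction i using Nat.strong_induction_on with
  | _ i ih =>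
    by_contra hne
    have h1 : ∀ j : ℕ, j < i → v (a + j) = v (a' + j) := by
      intro j hj
      refine ih j hj ?_
      have := h.strictMono (show a + (j : ℤ) < a + i by omega)
      omega
    have h2 := h.cut_eq h1
    obtain ⟨δ, h3, h4, h5⟩ := h.delta hirr hne
    apply h5
    have h6 := h.strictMono.monotone (show a ≤ a + (i : ℤ) by omega)
    have := hc (c (a + i) + δ - (e - t)).toNat (by omega)
    have e1 : e - (t : ℤ) + ((c (a + i) + δ - (e - t)).toNat : ℤ) = c (a + i) + δ := by omega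
    have e2 : e' - (t : ℤ) + ((c (a + i) + δ - (e - t)).toNat : ℤ) = c (a' + i) + δ := by omega
    rw [e1, e2] at this
    exact this

/-- mirror of `extR`; `g, g'` are the left ends of the common word -/
theorem extL (hirr : Irred θ) (h : Img θ v U c) {g g' a a' : ℤ} {t : ℕ} (ha : c a = g + t)
    (ha' : c a' = g' + t) (hc : ∀ i : ℕ, i < t → U (g + i) = U (g' + i)) (i : ℕ)
    (hi : g + tl θ ≤ c (a - i)) : v (a - i - 1) = v (a' - i - 1) := by
  have h1 := extR (e := -g) (e' := -g') (a := -a) (a' := -a') (t := t) hirr.reverse h.mirror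
    (by rw [neg_neg]; omega) (by rw [neg_neg]; omega)
    (by
      intro j hj
      have := hc (t - 1 - j) (by omega)
      have e1 : g + ((t - 1 - j : ℕ) : ℤ) = -1 - (-g - t + j) := by omega
      have e2 : g' + ((t - 1 - j : ℕ) : ℤ) = -1 - (-g' - t + j) := by omega
      rw [e1, e2] at this
      exact this) i
    (by
      rw [tl_reverse]
      have e : -(-a + (i : ℤ)) = a - i := by ring
      rw [e]
      omega)
  have e1 : a - (i : ℤ) - 1 = -1 - (-a + i) := by ring
  have e2 : a' - (i : ℤ) - 1 = -1 - (-a' + i) := by ring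
  rw [e1, e2]
  exact h1

/-- a fork with a common cut to its left comes from a fork -/
theorem parentR (hirr : Irred θ) (h : Img θ v U c) {e e' a a' : ℤ} (hee : U e ≠ U e') {t : ℕ}
    (ha : c a = e - t) (ha' : c a' = e' - t)
    (hc : ∀ i : ℕ, i < t → U (e - t + i) = U (e' - t + i)) :
    ∃ k δ : ℕ, (∀ i : ℕ, i < k → v (a + i) = v (a' + i)) ∧ v (a + k) ≠ v (a' + k) ∧
      c (a + k) + δ = e ∧ c (a' + k) + δ = e' ∧ δ < tl θ := by
  classical
  have hex : ∃ k : ℕ, v (a + k) ≠ v (a' + k) := by
    by_contra hcon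
    push Not at hcon
    apply hee
    have h1 := h.add_le a (t + 1)
    have := h.val_eq (a := a) (b := a') (k := t + 1) (fun i _ => hcon i) t (by push_cast at h1 ⊢; omega)
    have e1 : c a + (t : ℤ) = e := by omega
    have e2 : c a' + (t : ℤ) = e' := by omega
    rw [e1, e2] at this
    exact this
  have hmin : ∀ i : ℕ, i < Nat.find hex → v (a + i) = v (a' + i) :=
    fun i hi => not_not.1 (Nat.find_min hex hi)
  have hspec := Nat.find_spec hex
  set k := Nat.find hex
  have h2 := h.cut_eq hmin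
  obtain ⟨δ, h3, h4, h5⟩ := h.delta hirr hspec
  have h6 := h.strictMono.monotone (show a ≤ a + (k : ℤ) by omega)
  -- the fork of the images is at `e`
  have hle : c (a + k) ≤ e := by
    by_contra hlt
    push Not at hlt
    apply hee
    have := h.val_eq (a := a) (b := a') (k := k) hmin t (by omega)
    have e1 : c a + (t : ℤ) = e := by omega
    have e2 : c a' + (t : ℤ) = e' := by omega
    rw [e1, e2] at this
    exact this
  have hδ : c (a + k) + δ = e := by
    rcases lt_trichotomy (c (a + k) + δ) e with hlt | heq | hgt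
    · exfalso
      apply h5
      have := hc (c (a + k) + δ - (e - t)).toNat (by omega)
      have e1 : e - (t : ℤ) + ((c (a + k) + δ - (e - t)).toNat : ℤ) = c (a + k) + δ := by omega
      have e2 : e' - (t : ℤ) + ((c (a + k) + δ - (e - t)).toNat : ℤ) = c (a' + k) + δ := by omega
      rw [e1, e2] at this
      exact this
    · exact heq
    · exfalso
      apply hee
      have := h4 (e - c (a + k)).toNat (by omega)
      have e1 : c (a + k) + ((e - c (a + k)).toNat : ℤ) = e := by omega
      have e2 : c (a' + k) + ((e - c (a + k)).toNat : ℤ) = e' := by omega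
      rw [e1, e2] at this
      exact this
  exact ⟨k, δ, hmin, hspec, hδ, by omega, h3⟩

/-- mirror of `parentR` -/
theorem parentL (hirr : Irred θ) (h : Img θ v U c) {g g' a a' : ℤ} (hgg : U (g - 1) ≠ U (g' - 1))
    {t : ℕ} (ha : c a = g + t) (ha' : c a' = g' + t)
    (hc : ∀ i : ℕ, i < t → U (g + i) = U (g' + i)) :
    ∃ k ε : ℕ, (∀ i : ℕ, i < k → v (a - i - 1) = v (a' - i - 1)) ∧
      v (a - k - 1) ≠ v (a' - k - 1) ∧
      c (a - k) - ε = g ∧ c (a' - k) - ε = g' ∧ ε < tl θ := by
  obtain ⟨k, ε, h1, h2, h3, h4, h5⟩ := parentR (e := -g) (e' := -g') (a := -a) (a' := -a') (t := t)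
    hirr.reverse h.mirror
    (by
      have e1 : -1 - -g = g - 1 := by ring
      have e2 : -1 - -g' = g' - 1 := by ring
      rw [e1, e2]; exact hgg)
    (by rw [neg_neg]; omega) (by rw [neg_neg]; omega)
    (by
      intro j hj
      have := hc (t - 1 - j) (by omega)
      have e1 : g + ((t - 1 - j : ℕ) : ℤ) = -1 - (-g - t + j) := by omega
      have e2 : g' + ((t - 1 - j : ℕ) : ℤ) = -1 - (-g' - t + j) := by omega
      rw [e1, e2] at this
      exact this)
  have ea : ∀ i : ℕ, a - (i : ℤ) - 1 = -1 - (-a + i) := fun i => by ring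
  have ea' : ∀ i : ℕ, a' - (i : ℤ) - 1 = -1 - (-a' + i) := fun i => by ring
  have e1 : -(-a + (k : ℤ)) = a - k := by ring
  have e2 : -(-a' + (k : ℤ)) = a' - k := by ring
  rw [e1] at h3
  rw [e2] at h4
  rw [tl_reverse] at h5
  refine ⟨k, ε, fun i hi => ?_, ?_, by omega, by omega, h5⟩
  · rw [ea, ea']; exact h1 i hi
  · rw [ea, ea']; exact h2

/-- **Lifting of bi-forks** -/
theorem biparent {A B : Type} [Fintype B] {θ : B → List A} (hirr : Irred θ) :
    ∃ N P : ℕ, ∀ (v : ℤ → B) (U : ℤ → A) (c : ℤ → ℤ), Img θ v U c →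
    ∀ (e e' : ℤ) (n : ℕ), BiF U e e' n →
    (∃ q : ℕ, 0 < q ∧ q ≤ P ∧ Per U q (e - n + N) (e - N)) ∨
    (∃ (α α' : ℤ) (M : ℕ), BiF v α α' M ∧ Lift c (tl θ) α α' M e e' n) := by
  obtain ⟨N, P, hsync⟩ := sync hirr
  refine ⟨N + tl θ, P, ?_⟩
  intro v U c h e e' n hbf
  obtain ⟨hcom, hee, hll⟩ := hbf
  rcases hsync v U c h e e' n hcom with ⟨a, a', t, ht, ha, ha'⟩ | ⟨a₁, a₂, h12, hP, hlo, hhi, hv⟩
  · right
    obtain ⟨k, δ, h1, h2, h3, h4, h5⟩ := parentR hirr h hee ha ha' (by
      intro i hi
      have := hcom (n - t + i) (by omega)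
      have e1 : e - (n : ℤ) + ((n - t + i : ℕ) : ℤ) = e - t + i := by
        push_cast [Nat.cast_sub ht]; ring
      have e2 : e' - (n : ℤ) + ((n - t + i : ℕ) : ℤ) = e' - t + i := by
        push_cast [Nat.cast_sub ht]; ring
      rw [e1, e2] at this
      exact this)
    obtain ⟨k₂, ε, g1, g2, g3, g4, g5⟩ := parentL (g := e - n) (g' := e' - n) (t := n - t) hirr h hll
      (a := a) (a' := a') (by push_cast [Nat.cast_sub ht]; omega)
      (by push_cast [Nat.cast_sub ht]; omega) (fun i hi => hcom i (by omega))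
    refine ⟨a + k, a' + k, k + k₂, ⟨?_, h2, ?_⟩, δ, ε, h5, g5, h3, h4, ?_, ?_⟩
    · intro i hi
      by_cases hik : i < k₂
      · have := g1 (k₂ - 1 - i) (by omega)
        have e1 : a + (k : ℤ) - ((k + k₂ : ℕ) : ℤ) + i = a - ((k₂ - 1 - i : ℕ) : ℤ) - 1 := by omega
        have e2 : a' + (k : ℤ) - ((k + k₂ : ℕ) : ℤ) + i = a' - ((k₂ - 1 - i : ℕ) : ℤ) - 1 := by omega
        rw [e1, e2]; exact this
      · have := h1 (i - k₂) (by omega)
        have e1 : a + (k : ℤ) - ((k + k₂ : ℕ) : ℤ) + i = a + ((i - k₂ : ℕ) : ℤ) := by omega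
        have e2 : a' + (k : ℤ) - ((k + k₂ : ℕ) : ℤ) + i = a' + ((i - k₂ : ℕ) : ℤ) := by omega
        rw [e1, e2]; exact this
    · have e1 : a + (k : ℤ) - ((k + k₂ : ℕ) : ℤ) - 1 = a - k₂ - 1 := by push_cast; ring
      have e2 : a' + (k : ℤ) - ((k + k₂ : ℕ) : ℤ) - 1 = a' - k₂ - 1 := by push_cast; ring
      rw [e1, e2]; exact g2
    · have e1 : a + (k : ℤ) - ((k + k₂ : ℕ) : ℤ) = a - k₂ := by push_cast; ring
      rw [e1]; exact g3
    · have e1 : a' + (k : ℤ) - ((k + k₂ : ℕ) : ℤ) = a' - k₂ := by push_cast; ring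
      rw [e1]; exact g4
  · left
    obtain ⟨π, hπ⟩ : ∃ π : ℕ, a₂ = a₁ + π := ⟨(a₂ - a₁).toNat, by omega⟩
    subst hπ
    have hcc := h.strictMono h12
    obtain ⟨y, hy1, hy2⟩ := h.exists_block (e - N)
    have hy3 := h.step_le y
    by_cases hyy : a₁ + π ≤ y
    · have hper : Per v π a₁ y := by
        intro j hj1 hj2
        have := hv (j - a₁).toNat (by
          have e1 : a₁ + (π : ℤ) + ((j - a₁).toNat : ℤ) + 1 = j + π + 1 := by omega
          rw [e1]
          exact le_trans (h.strictMono.monotone (by omega)) hy1)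
        have e1 : a₁ + ((j - a₁).toNat : ℤ) = j := by omega
        have e2 : a₁ + (π : ℤ) + ((j - a₁).toNat : ℤ) = j + π := by omega
        rw [e1, e2] at this
        exact this
      obtain ⟨q, hq1, hq2⟩ := h.per_image hper hyy
      refine ⟨q, by omega, by omega, ?_⟩
      intro z hz1 hz2
      push_cast at hz1 hz2
      exact hq2 z (by omega) (by omega)
    · have hq : c (y + 1) ≤ c (a₁ + π) := h.strictMono.monotone (by omega)
      refine ⟨(c (a₁ + π) - c a₁).toNat, by omega, by omega, ?_⟩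
      intro z hz1 hz2
      exfalso
      push_cast at hz1 hz2
      omega

end

end Pool.Agent.H68.MW
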