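import Mathlib

/-! # Graph lemma (defect effect) for morphisms of free monoids

`graphLemma`: a system of (long finite) equations whose first letters connect the alphabet into few
classes makes the morphism factor through a small alphabet. -/

set_option autoImplicit false

namespace Pool.Agent.H68.MW

/-- total length of the images of the letters -/
def tl {D B : Type} [Fintype D] (θ : D → List B) : ℕ := ∑ d, (θ d).length

/-- `θ` factors through an alphabet with at most `k` letters -/
def Factors {D B : Type} (θ : D → List B) (k : ℕ) : Prop :=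
  ∃ (C : Type) (_ : Fintype C) (g : D → List C) (h : C → List B),
    Fintype.card C ≤ k ∧ ∀ d, θ d = (g d).flatMap h

/-- `θ` does not factor through a smaller alphabet (`elementary` morphisms) -/
def Irred {B A : Type} [Fintype B] (θ : B → List A) : Prop :=
  ∀ (C : Type) [Fintype C] (g : B → List C) (h : C → List A),
    (∀ b, θ b = (g b).flatMap h) → Fintype.card B ≤ Fintype.card C

theorem length_le_tl {D B : Type} [Fintype D] (θ : D → List B) (d : D) :
    (θ d).length ≤ tl θ :=
  Finset.single_le_sum (f := fun d => (θ d).length) (fun _ _ => Nat.zero_le _) (Finset.mem_univ d)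

/-- edge relation of a system of equations -/
def Edge {D ι : Type} (y y' : ι → List D) (p q : D) : Prop :=
  ∃ i, (y i).head? = some p ∧ (y' i).head? = some q

theorem eqvGen_map {D D' : Type} {r : D → D → Prop} {r' : D' → D' → Prop} (ψ : D → D')
    (h : ∀ a b, r a b → Relation.EqvGen r' (ψ a) (ψ b)) {a b : D} (hab : Relation.EqvGen r a b) :
    Relation.EqvGen r' (ψ a) (ψ b) := by
  induction hab with
  | rel x y hxy => exact h x y hxy
  | refl x => exact Relation.EqvGen.refl _
  | symm x y _ ih => exact Relation.EqvGen.symm _ _ ih
  | trans x y z _ _ ih1 ih2 => exact Relation.EqvGen.trans _ _ _ ih1 ih2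

theorem flatMap_flatMap' {D E B : Type} (φ : D → List E) (θ : E → List B) (w : List D) :
    (w.flatMap φ).flatMap θ = w.flatMap (fun d => (φ d).flatMap θ) := by
  induction w with
  | nil => rfl
  | cons a w ih => simp [List.flatMap_cons, List.flatMap_append, ih]

/-- the induction step when two connected letters have prefix-comparable images -/
theorem graphLemma_aux (N : ℕ)
    (IH : ∀ {D B : Type} [Fintype D] [DecidableEq D] {ι : Type} (θ : D → List B)
      (_ : ∀ d, θ d ≠ []) (y y' : ι → List D)
      (_ : ∀ i, ∃ ω : List B, tl θ ≤ ω.length ∧ ω <+: (y i).flatMap θ ∧ ω <+: (y' i).flatMap θ)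
      {K : Type} [Fintype K] (κ : D → K)
      (_ : ∀ d d', κ d = κ d' → Relation.EqvGen (Edge y y') d d'), tl θ ≤ N →
      Factors θ (Fintype.card K))
    {D B : Type} [Fintype D] [DecidableEq D] {ι : Type} (θ : D → List B)
    (hθ : ∀ d, θ d ≠ []) (y y' : ι → List D)
    (hc : ∀ i, ∃ ω : List B, tl θ ≤ ω.length ∧ ω <+: (y i).flatMap θ ∧ ω <+: (y' i).flatMap θ)
    {K : Type} [Fintype K] (κ : D → K)
    (hκ : ∀ d d', κ d = κ d' → Relation.EqvGen (Edge y y') d d') (hN : tl θ ≤ N + 1)
    (i : ι) (p q : D) (r r' : List D) (hpq : p ≠ q) (hy : y i = p :: r) (hy' : y' i = q :: r')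
    (hle : (θ p).length ≤ (θ q).length) : Factors θ (Fintype.card K) := by
  classical
  obtain ⟨ω, hω, hω1, hω2⟩ := hc i
  have hp : θ p <+: ω := by
    rw [hy, List.flatMap_cons] at hω1
    exact List.prefix_of_prefix_length_le (List.prefix_append _ _) hω1
      (le_trans (length_le_tl θ p) hω)
  have hq : θ q <+: ω := by
    rw [hy', List.flatMap_cons] at hω2
    exact List.prefix_of_prefix_length_le (List.prefix_append _ _) hω2
      (le_trans (length_le_tl θ q) hω)
  obtain ⟨t, ht⟩ : θ p <+: θ q := List.prefix_of_prefix_length_le hp hq hle
  have hθp : 0 < (θ p).length := List.length_pos_iff.2 (hθ p)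
  have hθq : 0 < (θ q).length := List.length_pos_iff.2 (hθ q)
  by_cases htn : t = []
  · -- identify `q` with `p`
    subst htn
    rw [List.append_nil] at ht
    let D' := {d : D // d ≠ q}
    let θ' : D' → List B := fun d => θ d.1
    let ψ : D → D' := fun d => if h : d = q then ⟨p, hpq⟩ else ⟨d, h⟩
    have hψ : ∀ d, θ' (ψ d) = θ d := by
      intro d
      by_cases h : d = q
      · simp [ψ, θ', h, ht]
      · simp [ψ, θ', h]
    have hψ' : ∀ d : D', ψ d.1 = d := by
      intro d
      simp [ψ, d.2]
    have htl : tl θ = tl θ' + (θ q).length := by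
      unfold tl
      rw [← Finset.sum_erase_add _ _ (Finset.mem_univ q)]
      congr 1
      exact Finset.sum_subtype (p := fun d => d ≠ q) (Finset.univ.erase q) (by intro x; simp)
        (fun d => (θ d).length)
    have hmap : ∀ w : List D, (w.map ψ).flatMap θ' = w.flatMap θ := by
      intro w
      induction w with
      | nil => rfl
      | cons a w ih => simp [List.flatMap_cons, ih, hψ]
    have := IH (D := D') θ' (fun d => hθ d.1) (fun j => (y j).map ψ) (fun j => (y' j).map ψ)
      (by
        intro j
        obtain ⟨ω', h1, h2, h3⟩ := hc j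
        refine ⟨ω', by omega, ?_, ?_⟩
        · rw [hmap]; exact h2
        · rw [hmap]; exact h3)
      (fun d => κ d.1)
      (by
        intro d d' h
        have h1 := hκ d.1 d'.1 h
        have h2 := eqvGen_map (r' := Edge (fun j => (y j).map ψ) (fun j => (y' j).map ψ)) ψ
          (by
            rintro a b ⟨j, ha, hb⟩
            exact Relation.EqvGen.rel _ _ ⟨j, by simp [List.head?_map, ha], by
              simp [List.head?_map, hb]⟩) h1
        rw [hψ', hψ'] at h2
        exact h2)
      (by omega)
    obtain ⟨C, hC, g, h, hcard, hgh⟩ := this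
    refine ⟨C, hC, fun d => g (ψ d), h, hcard, fun d => ?_⟩
    rw [← hgh, hψ]
  · -- replace `q` by `p q`
    let θ' : D → List B := fun d => if d = q then t else θ d
    let φ : D → List D := fun d => if d = q then [p, q] else [d]
    let ψ : D → D := fun d => if d = q then p else d
    have hφ : ∀ d, (φ d).flatMap θ' = θ d := by
      intro d
      by_cases h : d = q
      · simp [φ, θ', h, hpq, ht]
      · simp [φ, θ', h]
    have hφw : ∀ w : List D, (w.flatMap φ).flatMap θ' = w.flatMap θ := by
      intro w
      rw [flatMap_flatMap']
      congr 1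
      funext d
      exact hφ d
    have hhead : ∀ (w : List D) (a : D), w.head? = some a → (w.flatMap φ).head? = some (ψ a) := by
      intro w a h
      cases w with
      | nil => simp at h
      | cons b w =>
        simp only [List.head?_cons, Option.some.injEq] at h
        subst h
        by_cases hb : b = q
        · simp [List.flatMap_cons, φ, ψ, hb]
        · simp [List.flatMap_cons, φ, ψ, hb]
    have hlen : (θ q).length = (θ p).length + t.length := by
      rw [← ht, List.length_append]
    have htl : tl θ = tl θ' + (θ p).length := by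
      unfold tl
      rw [← Finset.sum_erase_add _ _ (Finset.mem_univ q),
        ← Finset.sum_erase_add Finset.univ (fun d => (θ' d).length) (Finset.mem_univ q)]
      have h1 : ∑ x ∈ Finset.univ.erase q, (θ' x).length
          = ∑ x ∈ Finset.univ.erase q, (θ x).length := by
        apply Finset.sum_congr rfl
        intro x hx
        simp [θ', (Finset.mem_erase.1 hx).1]
      have h2 : (θ' q).length = t.length := by simp [θ']
      rw [h1, h2, hlen]
      omega
    obtain ⟨ω', hω'⟩ := hp
    have hω'len : tl θ' ≤ ω'.length := by
      have : ω.length = (θ p).length + ω'.length := by rw [← hω', List.length_append]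
      omega
    have hω'1 : ω' <+: r.flatMap θ := by
      rw [hy, List.flatMap_cons, ← hω'] at hω1
      exact (List.prefix_append_right_inj _).1 hω1
    have hω'2 : ω' <+: t ++ r'.flatMap θ := by
      rw [hy', List.flatMap_cons, ← hω', ← ht, List.append_assoc] at hω2
      exact (List.prefix_append_right_inj _).1 hω2
    have htpos : 0 < t.length := List.length_pos_iff.2 htn
    have ht' : t.length ≤ tl θ' := by
      have := length_le_tl θ' q
      simpa [θ'] using this
    have hrne : r ≠ [] := by
      rintro rfl
      simp only [List.flatMap_nil] at hω'1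
      have := hω'1.length_le
      simp at this
      subst this
      simp at hω'len
      omega
    obtain ⟨z0, r0, hr0⟩ := List.exists_cons_of_ne_nil hrne
    set z := ψ z0 with hz
    have hzq : z ≠ q := by
      simp only [hz, ψ]
      split_ifs with h
      · exact hpq
      · exact h
    have hzhead : (r.flatMap φ).head? = some z := hhead r z0 (by rw [hr0]; rfl)
    let Y : Option ι → List D := fun o => match o with
      | none => r.flatMap φ
      | some j => (y j).flatMap φ
    let Y' : Option ι → List D := fun o => match o with
      | none => q :: r'.flatMap φ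
      | some j => (y' j).flatMap φ
    let κ' : D → K := fun d => if d = q then κ z else κ d
    have hedge : ∀ a b, Edge y y' a b → Relation.EqvGen (Edge Y Y') (ψ a) (ψ b) := by
      rintro a b ⟨j, ha, hb⟩
      exact Relation.EqvGen.rel _ _ ⟨some j, hhead _ _ ha, hhead _ _ hb⟩
    have hzq' : Relation.EqvGen (Edge Y Y') z q :=
      Relation.EqvGen.rel _ _ ⟨none, hzhead, rfl⟩
    have key : ∀ d d', d ≠ q → d' ≠ q → κ d = κ d' → Relation.EqvGen (Edge Y Y') d d' := by
      intro d d' hd hd' h
      have := eqvGen_map ψ hedge (hκ d d' h)
      simpa [ψ, hd, hd'] using this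
    have := IH (D := D) (ι := Option ι) θ'
      (by
        intro d
        by_cases h : d = q
        · simp [θ', h, htn]
        · simp [θ', h, hθ d])
      Y Y'
      (by
        intro o
        cases o with
        | none =>
          refine ⟨ω', hω'len, ?_, ?_⟩
          · show ω' <+: (r.flatMap φ).flatMap θ'
            rw [hφw]; exact hω'1
          · show ω' <+: (q :: r'.flatMap φ).flatMap θ'
            rw [List.flatMap_cons, hφw]
            simpa [θ'] using hω'2
        | some j =>
          obtain ⟨ω'', h1, h2, h3⟩ := hc j
          refine ⟨ω'', by omega, ?_, ?_⟩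
          · show ω'' <+: ((y j).flatMap φ).flatMap θ'
            rw [hφw]; exact h2
          · show ω'' <+: ((y' j).flatMap φ).flatMap θ'
            rw [hφw]; exact h3)
      κ'
      (by
        intro d d' h
        by_cases hd : d = q
        · by_cases hd' : d' = q
          · rw [hd, hd']; exact Relation.EqvGen.refl _
          · have h1 : κ z = κ d' := by simpa [κ', hd, hd'] using h
            rw [hd]
            exact Relation.EqvGen.trans _ _ _ (Relation.EqvGen.symm _ _ hzq') (key z d' hzq hd' h1)
        · by_cases hd' : d' = q
          · have h1 : κ d = κ z := by simpa [κ', hd, hd'] using h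
            rw [hd']
            exact Relation.EqvGen.trans _ _ _ (key d z hd hzq h1) hzq'
          · exact key d d' hd hd' (by simpa [κ', hd, hd'] using h))
      (by omega)
    obtain ⟨C, hC, g, h, hcard, hgh⟩ := this
    refine ⟨C, hC, fun d => (φ d).flatMap g, h, hcard, fun d => ?_⟩
    rw [flatMap_flatMap', ← hφ d]
    congr 1
    funext e
    exact hgh e

/-- **Graph lemma**, finite version. -/
theorem graphLemma (N : ℕ) : ∀ {D B : Type} [Fintype D] [DecidableEq D] {ι : Type}
    (θ : D → List B) (_ : ∀ d, θ d ≠ []) (y y' : ι → List D)
    (_ : ∀ i, ∃ ω : List B, tl θ ≤ ω.length ∧ ω <+: (y i).flatMap θ ∧ ω <+: (y' i).flatMap θ)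
    {K : Type} [Fintype K] (κ : D → K)
    (_ : ∀ d d', κ d = κ d' → Relation.EqvGen (Edge y y') d d'), tl θ ≤ N →
    Factors θ (Fintype.card K) := by
  induction N with
  | zero =>
    intro D B _ _ ι θ hθ y y' hc K _ κ hκ hN
    have hD : IsEmpty D := by
      constructor
      intro d
      have h1 := length_le_tl θ d
      have h2 : 0 < (θ d).length := List.length_pos_iff.2 (hθ d)
      omega
    exact ⟨D, inferInstance, fun d => [d], θ, by simp [Fintype.card_eq_zero], fun d => by simp⟩
  | succ N IH =>
    intro D B _ _ ι θ hθ y y' hc K _ κ hκ hN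
    by_cases hall : ∀ i p q, (y i).head? = some p → (y' i).head? = some q → p = q
    · have hinj : Function.Injective κ := by
        intro d d' h
        have h1 := hκ d d' h
        clear h
        induction h1 with
        | rel x y hxy =>
          obtain ⟨i, h1, h2⟩ := hxy
          exact hall i _ _ h1 h2
        | refl x => rfl
        | symm x y _ ih => exact ih.symm
        | trans x y z _ _ ih1 ih2 => exact ih1.trans ih2
      exact ⟨D, inferInstance, fun d => [d], θ, Fintype.card_le_of_injective κ hinj,
        fun d => by simp⟩
    · push Not at hall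
      obtain ⟨i, p, q, h1, h2, hpq⟩ := hall
      obtain ⟨r, hr⟩ : ∃ r, y i = p :: r := by
        cases hyi : y i with
        | nil => rw [hyi] at h1; simp at h1
        | cons a r =>
          rw [hyi] at h1; simp at h1; exact ⟨r, by rw [h1]⟩
      obtain ⟨r', hr'⟩ : ∃ r', y' i = q :: r' := by
        cases hyi : y' i with
        | nil => rw [hyi] at h2; simp at h2
        | cons a r =>
          rw [hyi] at h2; simp at h2; exact ⟨r, by rw [h2]⟩
      rcases le_total (θ p).length (θ q).length with hle | hle
      · exact graphLemma_aux N IH θ hθ y y' hc κ hκ hN i p q r r' hpq hr hr' hle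
      · refine graphLemma_aux N IH θ hθ y' y (fun i => ?_) κ (fun d d' h => ?_) hN i q p r' r
          (Ne.symm hpq) hr' hr hle
        · obtain ⟨ω, a, b, c⟩ := hc i
          exact ⟨ω, a, c, b⟩
        · have := eqvGen_map (r' := Edge y' y) id (by
            rintro a b ⟨j, ha, hb⟩
            exact Relation.EqvGen.symm _ _ (Relation.EqvGen.rel _ _ ⟨j, hb, ha⟩)) (hκ d d' h)
          exact this

/-- An irreducible morphism is nonerasing. -/
theorem Irred.ne_nil {B A : Type} [Fintype B] {θ : B → List A} (h : Irred θ) (b : B) :
    θ b ≠ [] := by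
  classical
  intro hb
  have := h {c : B // c ≠ b} (fun c => if hc : c = b then [] else [⟨c, hc⟩]) (fun c => θ c.1) (by
    intro c
    by_cases hc : c = b
    · simp [hc, hb]
    · simp [hc])
  have h2 : Fintype.card {c : B // c ≠ b} < Fintype.card B :=
    Fintype.card_subtype_lt (x := b) (by simp)
  omega

theorem Irred.not_factors {B A : Type} [Fintype B] {θ : B → List A} (h : Irred θ) {k : ℕ}
    (hk : k < Fintype.card B) : ¬ Factors θ k := by
  rintro ⟨C, hC, g, h', hcard, hgh⟩
  have := @h C hC g h' hgh
  omega

/-- **Bounded delay**: images of words with different first letters have a short common prefix. -/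
theorem Irred.delay {B A : Type} [Fintype B] {θ : B → List A} (h : Irred θ) (p q : B)
    (r r' : List B) (hpq : p ≠ q) (ω : List A) (h1 : ω <+: (p :: r).flatMap θ)
    (h2 : ω <+: (q :: r').flatMap θ) : ω.length < tl θ := by
  classical
  by_contra hlen
  push Not at hlen
  refine h.not_factors (k := Fintype.card {c : B // c ≠ q}) (Fintype.card_subtype_lt (x := q) (by simp)) ?_
  refine graphLemma (tl θ) θ h.ne_nil (fun _ : Unit => p :: r) (fun _ : Unit => q :: r')
    (fun _ => ⟨ω, hlen, h1, h2⟩) (fun c => if hc : c = q then ⟨p, hpq⟩ else ⟨c, hc⟩) ?_ le_rfl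
  intro d d' hdd
  have hpq' : Relation.EqvGen (Edge (fun _ : Unit => p :: r) (fun _ : Unit => q :: r')) p q :=
    Relation.EqvGen.rel _ _ ⟨(), rfl, rfl⟩
  by_cases hd : d = q
  · by_cases hd' : d' = q
    · rw [hd, hd']; exact Relation.EqvGen.refl _
    · simp [hd, hd'] at hdd
      rw [hd, ← hdd]; exact Relation.EqvGen.symm _ _ hpq'
  · by_cases hd' : d' = q
    · simp [hd, hd'] at hdd
      rw [hd', hdd]; exact hpq'
    · simp [hd, hd'] at hdd
      rw [hdd]; exact Relation.EqvGen.refl _

/-- extension of a morphism by one letter -/
def ext {B A : Type} (θ : B → List A) (s : List A) : Option B → List A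
  | none => s
  | some b => θ b

theorem tl_ext {B A : Type} [Fintype B] (θ : B → List A) (s : List A) :
    tl (ext θ s) = tl θ + s.length := by
  unfold tl
  rw [Fintype.sum_option]
  simp [ext, Nat.add_comm]

theorem flatMap_ext_map {B A : Type} (θ : B → List A) (s : List A) (w : List B) :
    (w.map some).flatMap (ext θ s) = w.flatMap θ := by
  induction w with
  | nil => rfl
  | cons a w ih => simp [List.flatMap_cons, ih, ext]

/-- **Determinism**: the letter that is read against the overhang `s` is determined by `s`. -/
theorem Irred.det {B A : Type} [Fintype B] {θ : B → List A} (h : Irred θ) (s : List A)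
    (hs : s ≠ []) (β β' : B) (Y1 Y1' Y2 Y2' : List B) (ω1 ω2 : List A)
    (hl1 : tl θ + s.length ≤ ω1.length) (h1 : ω1 <+: s ++ Y1.flatMap θ)
    (h1' : ω1 <+: (β :: Y1').flatMap θ)
    (hl2 : tl θ + s.length ≤ ω2.length) (h2 : ω2 <+: s ++ Y2.flatMap θ)
    (h2' : ω2 <+: (β' :: Y2').flatMap θ) : β = β' := by
  classical
  by_contra hne
  have hfac : Factors (ext θ s) (Fintype.card {c : B // c ≠ β'}) := by
    let y : Bool → List (Option B) := fun b => match b with
      | true => none :: Y1.map some
      | false => none :: Y2.map some
    let y' : Bool → List (Option B) := fun b => match b with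
      | true => (β :: Y1').map some
      | false => (β' :: Y2').map some
    have e1 : Relation.EqvGen (Edge y y') none (some β) :=
      Relation.EqvGen.rel _ _ ⟨true, rfl, rfl⟩
    have e2 : Relation.EqvGen (Edge y y') none (some β') :=
      Relation.EqvGen.rel _ _ ⟨false, rfl, rfl⟩
    have e3 : Relation.EqvGen (Edge y y') (some β) (some β') :=
      Relation.EqvGen.trans _ _ _ (Relation.EqvGen.symm _ _ e1) e2
    let κ : Option B → {c : B // c ≠ β'} := fun o => match o with
      | none => ⟨β, hne⟩
      | some c => if hc : c = β' then ⟨β, hne⟩ else ⟨c, hc⟩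
    -- every letter is connected to the representative of its class
    have hrep : ∀ o, Relation.EqvGen (Edge y y') o (some (κ o).1) := by
      intro o
      cases o with
      | none => exact e1
      | some c =>
        by_cases hc : c = β'
        · simp only [κ, hc, dif_pos]
          exact Relation.EqvGen.symm _ _ e3
        · simp only [κ, hc, dif_neg, not_false_iff]
          exact Relation.EqvGen.refl _
    refine graphLemma (tl (ext θ s)) (ext θ s) ?_ y y' ?_ κ ?_ le_rfl
    · intro o
      cases o with
      | none => exact hs
      | some b => exact h.ne_nil b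
    · intro b
      cases b with
      | true =>
        refine ⟨ω1, by rw [tl_ext]; exact hl1, ?_, ?_⟩
        · show ω1 <+: (none :: Y1.map some).flatMap (ext θ s)
          rw [List.flatMap_cons, flatMap_ext_map]; exact h1
        · show ω1 <+: ((β :: Y1').map some).flatMap (ext θ s)
          rw [flatMap_ext_map]; exact h1'
      | false =>
        refine ⟨ω2, by rw [tl_ext]; exact hl2, ?_, ?_⟩
        · show ω2 <+: (none :: Y2.map some).flatMap (ext θ s)
          rw [List.flatMap_cons, flatMap_ext_map]; exact h2
        · show ω2 <+: ((β' :: Y2').map some).flatMap (ext θ s)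
          rw [flatMap_ext_map]; exact h2'
    · intro d d' hdd
      have a := hrep d
      have b := hrep d'
      rw [hdd] at a
      exact Relation.EqvGen.trans _ _ _ a (Relation.EqvGen.symm _ _ b)
  obtain ⟨C, hC, g, h', hcard, hgh⟩ := hfac
  refine h.not_factors (k := Fintype.card {c : B // c ≠ β'})
    (Fintype.card_subtype_lt (x := β') (by simp)) ⟨C, hC, fun b => g (some b), h', hcard, fun b => ?_⟩
  exact hgh (some b)

end Pool.Agent.H68.MW
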