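import Pool.Agent.H68.MW.GL

/-! # Two-sided words, morphic images and cut functions; recognisability (SYNC) -/

set_option autoImplicit false

namespace Pool.Agent.H68.MW

/-- the window of length `n` of the two-sided word `U` starting at `x` -/
def win {A : Type} (U : ℤ → A) (x : ℤ) (n : ℕ) : List A := (List.range n).map (fun i : ℕ => U (x + (i : ℤ)))

@[simp] theorem length_win {A : Type} (U : ℤ → A) (x : ℤ) (n : ℕ) : (win U x n).length = n := by
  simp [win]

theorem getElem_win {A : Type} (U : ℤ → A) (x : ℤ) (n i : ℕ) (h : i < (win U x n).length) :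
    (win U x n)[i] = U (x + i) := by
  simp [win]

theorem win_add {A : Type} (U : ℤ → A) (x : ℤ) (m n : ℕ) :
    win U x (m + n) = win U x m ++ win U (x + m) n := by
  apply List.ext_getElem
  · simp
  · intro i h1 h2
    rw [getElem_win]
    by_cases hi : i < m
    · rw [List.getElem_append_left (by simpa using hi), getElem_win]
    · rw [List.getElem_append_right (by simpa using hi), getElem_win]
      congr 1
      simp only [length_win]
      push_cast [Nat.cast_sub (by omega : m ≤ i)]
      ring

theorem win_succ {A : Type} (U : ℤ → A) (x : ℤ) (n : ℕ) :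
    win U x (n + 1) = U x :: win U (x + 1) n := by
  rw [Nat.add_comm, win_add]
  simp [win]

theorem win_eq_iff {A : Type} (U V : ℤ → A) (x y : ℤ) (n : ℕ) :
    win U x n = win V y n ↔ ∀ i : ℕ, i < n → U (x + i) = V (y + i) := by
  constructor
  · intro h i hi
    have h1 : (win U x n)[i]'(by simpa using hi) = (win V y n)[i]'(by simpa using hi) := by
      simp only [h]
    rwa [getElem_win, getElem_win] at h1
  · intro h
    apply List.ext_getElem
    · simp
    · intro i h1 h2
      rw [getElem_win, getElem_win]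
      exact h i (by simpa using h1)

theorem win_prefix_iff {A : Type} (U : ℤ → A) (x : ℤ) (n : ℕ) (L : List A) :
    win U x n <+: L ↔ ∃ h : n ≤ L.length, ∀ (i : ℕ) (hi : i < n), L[i] = U (x + i) := by
  constructor
  · rintro ⟨t, rfl⟩
    refine ⟨by simp, fun i hi => ?_⟩
    rw [List.getElem_append_left (by simpa using hi), getElem_win]
  · rintro ⟨h, hi⟩
    rw [List.prefix_iff_eq_take]
    apply List.ext_getElem
    · simp [h]
    · intro i h1 h2
      rw [getElem_win, List.getElem_take, hi i (by simpa using h1)]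

/-- `U` is the image of `v` under `θ`, with cut function `c`. -/
structure Img {B A : Type} (θ : B → List A) (v : ℤ → B) (U : ℤ → A) (c : ℤ → ℤ) : Prop where
  ne : ∀ b, θ b ≠ []
  step : ∀ n, c (n + 1) = c n + (θ (v n)).length
  val : ∀ n (i : ℕ) (h : i < (θ (v n)).length), U (c n + i) = (θ (v n))[i]

namespace Img

variable {B A : Type} {θ : B → List A} {v : ℤ → B} {U : ℤ → A} {c : ℤ → ℤ}

theorem lt_succ (h : Img θ v U c) (n : ℤ) : c n < c (n + 1) := by
  have := h.step n
  have h2 : 0 < (θ (v n)).length := List.length_pos_iff.2 (h.ne _)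
  omega

theorem add_le (h : Img θ v U c) (n : ℤ) (k : ℕ) : c n + k ≤ c (n + k) := by
  induction k with
  | zero => simp
  | succ k ih =>
    have := h.lt_succ (n + k)
    push_cast
    rw [← add_assoc, ← add_assoc]
    omega

theorem strictMono (h : Img θ v U c) : StrictMono c := by
  intro a b hab
  obtain ⟨k, rfl⟩ : ∃ k : ℕ, b = a + (k + 1 : ℕ) := ⟨(b - a - 1).toNat, by omega⟩
  have := h.add_le a (k + 1)
  push_cast at this ⊢
  omega

theorem win_image (h : Img θ v U c) (x : ℤ) (n : ℕ) :
    (win v x n).flatMap θ = win U (c x) (c (x + n) - c x).toNat := by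
  induction n generalizing x with
  | zero => simp [win]
  | succ n ih =>
    rw [win_succ, List.flatMap_cons, ih]
    have h1 := h.step x
    have h2 := h.add_le (x + 1) n
    have e1 : x + 1 + (n : ℤ) = x + ((n + 1 : ℕ) : ℤ) := by push_cast; ring
    rw [e1] at h2 ⊢
    have e2 : (c (x + ((n + 1 : ℕ) : ℤ)) - c x).toNat
        = (θ (v x)).length + (c (x + ((n + 1 : ℕ) : ℤ)) - c (x + 1)).toNat := by omega
    rw [e2, win_add, h1]
    congr 1
    apply List.ext_getElem
    · simp
    · intro i h3 h4
      rw [getElem_win, h.val x i h3]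

/-- every position lies in a block -/
theorem exists_block (h : Img θ v U c) (z : ℤ) : ∃ m, c m ≤ z ∧ z < c (m + 1) := by
  classical
  -- find a lower bound
  have hlow : ∃ m, c m ≤ z := by
    by_cases h0 : c 0 ≤ z
    · exact ⟨0, h0⟩
    · refine ⟨-((c 0 - z).toNat : ℤ), ?_⟩
      have := h.add_le (-((c 0 - z).toNat : ℤ)) (c 0 - z).toNat
      rw [neg_add_cancel] at this
      omega
  obtain ⟨m0, hm0⟩ := hlow
  have hup : ∃ k : ℕ, z < c (m0 + (k + 1 : ℕ)) := by
    refine ⟨(z - c m0).toNat, ?_⟩
    have := h.add_le m0 ((z - c m0).toNat + 1)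
    omega
  refine ⟨m0 + (Nat.find hup : ℕ), ?_, ?_⟩
  · rcases Nat.eq_zero_or_pos (Nat.find hup) with h1 | h1
    · rw [h1]; simpa using hm0
    · have := Nat.find_min hup (m := Nat.find hup - 1) (by omega)
      rw [Nat.sub_add_cancel h1] at this
      exact not_lt.1 this
  · have := Nat.find_spec hup
    push_cast at this ⊢
    rw [add_assoc]
    exact this

theorem block_unique (h : Img θ v U c) {z m m' : ℤ} (h1 : c m ≤ z) (h2 : z < c (m + 1))
    (h1' : c m' ≤ z) (h2' : z < c (m' + 1)) : m = m' := by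
  have a : c m < c (m' + 1) := by omega
  have b : c m' < c (m + 1) := by omega
  have a' := h.strictMono.lt_iff_lt.1 a
  have b' := h.strictMono.lt_iff_lt.1 b
  omega

theorem step_le [Fintype B] (h : Img θ v U c) (n : ℤ) : c (n + 1) ≤ c n + tl θ := by
  have := h.step n
  have h2 := length_le_tl θ (v n)
  omega

theorem add_le' [Fintype B] (h : Img θ v U c) (n : ℤ) (k : ℕ) : c (n + k) ≤ c n + k * tl θ := by
  induction k with
  | zero => simp
  | succ k ih =>
    have h1 := h.step_le (n + k)
    have e : n + ((k + 1 : ℕ) : ℤ) = n + k + 1 := by push_cast; ring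
    rw [e]
    have e2 : (((k + 1 : ℕ) : ℤ)) * (tl θ : ℤ) = k * tl θ + tl θ := by push_cast; ring
    rw [e2]
    omega

/-- translation of an image -/
theorem shift (h : Img θ v U c) (s : ℤ) : Img θ v (fun x => U (x + s)) (fun n => c n - s) where
  ne := h.ne
  step n := by have := h.step n; omega
  val n i hi := by
    have := h.val n i hi
    rw [← this]
    congr 1
    ring

/-- mirror image -/
theorem mirror (h : Img θ v U c) :
    Img (fun b => (θ b).reverse) (fun n => v (-1 - n)) (fun n => U (-1 - n)) (fun n => -c (-n)) where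
  ne b := by simpa using h.ne b
  step n := by
    have h1 := h.step (-1 - n)
    have e : (-1 - n + 1 : ℤ) = -n := by ring
    have e2 : (-(n + 1) : ℤ) = -1 - n := by ring
    rw [e] at h1
    simp only [List.length_reverse]
    rw [e2]
    omega
  val n i hi := by
    simp only [List.length_reverse] at hi
    have h1 := h.step (-1 - n)
    have e : (-1 - n + 1 : ℤ) = -n := by ring
    rw [e] at h1
    have h2 := h.val (-1 - n) ((θ (v (-1 - n))).length - 1 - i) (by omega)
    simp only [List.getElem_reverse]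
    rw [← h2]
    congr 1
    have : (((θ (v (-1 - n))).length - 1 - i : ℕ) : ℤ) = (θ (v (-1 - n))).length - 1 - i := by
      omega
    rw [this]
    omega

end Img

/-- Determinism of a double reading: two configurations of the pair of readings with the same
overhang evolve in the same way. -/
theorem det_run {B A : Type} [Fintype B] {θ : B → List A} (hirr : Irred θ) (lo hi : ℤ) (m : ℕ) :
    ∀ (v₁ v₂ : ℤ → B) (U₁ U₂ : ℤ → A) (c₁ c₂ : ℤ → ℤ) (_ : Img θ v₁ U₁ c₁) (_ : Img θ v₂ U₂ c₂)
    (_ : ∀ x, lo ≤ x → x < hi → U₁ x = U₂ x)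
    (_ : ∀ a b, lo ≤ c₁ a → c₁ a ≤ hi → c₁ a ≠ c₂ b)
    (a₁ a₂ b₁ b₂ : ℤ) (ℓ : ℕ) (_ : lo ≤ c₁ a₁) (_ : c₁ a₁ ≤ c₁ a₂)
    (_ : c₂ b₁ = c₁ a₁ + ℓ) (_ : c₂ b₂ = c₁ a₂ + ℓ) (_ : 0 < ℓ) (_ : ℓ ≤ tl θ)
    (_ : ∀ i : ℕ, i < ℓ → U₁ (c₁ a₁ + i) = U₁ (c₁ a₂ + i))
    (_ : hi - c₁ a₂ ≤ m),
    (∀ i : ℕ, c₁ (a₂ + i + 1) ≤ hi - 2 * tl θ → v₁ (a₁ + i) = v₁ (a₂ + i)) ∧
    (∀ i : ℕ, c₂ (b₂ + i + 1) ≤ hi - 2 * tl θ → v₂ (b₁ + i) = v₂ (b₂ + i)) := by
  induction m with
  | zero =>
    intro v₁ v₂ U₁ U₂ c₁ c₂ h₁ h₂ hU hcut a₁ a₂ b₁ b₂ ℓ hlo h12 hb1 hb2 hℓ hℓ' hov hm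
    constructor
    · intro i hi'
      have h1 := h₁.strictMono (show a₂ < a₂ + i + 1 by omega)
      push_cast at hm
      omega
    · intro i hi'
      have h1 := h₂.strictMono (show b₂ < b₂ + i + 1 by omega)
      push_cast at hm
      omega
  | succ m IH =>
    intro v₁ v₂ U₁ U₂ c₁ c₂ h₁ h₂ hU hcut a₁ a₂ b₁ b₂ ℓ hlo h12 hb1 hb2 hℓ hℓ' hov hm
    by_cases hbig : hi - 2 * tl θ < c₁ a₂
    · constructor
      · intro i hi'
        have h1 := h₁.strictMono (show a₂ < a₂ + i + 1 by omega)
        omega
      · intro i hi'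
        have h1 := h₂.strictMono (show b₂ < b₂ + i + 1 by omega)
        omega
    push Not at hbig
    -- the letters read at `a₁`, `a₂` coincide
    have hdet : v₁ a₁ = v₁ a₂ := by
      have key : ∀ a b : ℤ, lo ≤ c₁ a → c₁ a + 2 * tl θ ≤ hi → c₂ b = c₁ a + ℓ →
          (win U₁ (c₁ a) (2 * tl θ) <+: win U₁ (c₁ a) ℓ ++ (win v₂ b (2 * tl θ)).flatMap θ) ∧
          (win U₁ (c₁ a) (2 * tl θ) <+: (v₁ a :: win v₁ (a + 1) (2 * tl θ)).flatMap θ) := by
        intro a b hla hha hab
        constructor
        · rw [h₂.win_image, win_prefix_iff]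
          have hlen := h₂.add_le b (2 * tl θ)
          refine ⟨by simp only [List.length_append, length_win]; omega, fun i hi' => ?_⟩
          by_cases hil : i < ℓ
          · rw [List.getElem_append_left (by simpa using hil), getElem_win]
          · rw [List.getElem_append_right (by simpa using hil), getElem_win]
            simp only [length_win]
            rw [hab]
            have e : c₁ a + (ℓ : ℤ) + ((i - ℓ : ℕ) : ℤ) = c₁ a + i := by
              push_cast [Nat.cast_sub (by omega : ℓ ≤ i)]; ring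
            rw [e]
            symm
            apply hU <;> omega
        · rw [← win_succ, h₁.win_image, win_prefix_iff]
          have hlen := h₁.add_le a (2 * tl θ + 1)
          refine ⟨by simp only [length_win]; omega, fun i hi' => ?_⟩
          rw [getElem_win]
      obtain ⟨k1, k1'⟩ := key a₁ b₁ hlo (by omega) hb1
      obtain ⟨k2, k2'⟩ := key a₂ b₂ (by omega) (by omega) hb2
      have hs : win U₁ (c₁ a₁) ℓ = win U₁ (c₁ a₂) ℓ := (win_eq_iff _ _ _ _ _).2 hov
      refine hirr.det (win U₁ (c₁ a₁) ℓ) ?_ _ _ _ _ _ _ _ _ ?_ k1 k1' ?_ (by rw [hs]; exact k2) k2'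
      · rw [Ne, ← List.length_eq_zero_iff, length_win]; omega
      · simp only [length_win]; omega
      · simp only [length_win]; omega
    set t := (θ (v₁ a₁)).length with ht
    have ht2 : (θ (v₁ a₂)).length = t := by rw [← hdet]
    have htl : t ≤ tl θ := length_le_tl θ _
    have htpos : 0 < t := List.length_pos_iff.2 (h₁.ne _)
    have hs1 := h₁.step a₁
    have hs2 := h₁.step a₂
    rw [ht2] at hs2
    rw [← ht] at hs1
    have hne : t ≠ ℓ := by
      intro htℓ
      refine hcut (a₂ + 1) b₂ (by omega) (by omega) ?_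
      rw [hs2, hb2, htℓ]
    rcases lt_or_gt_of_ne hne with hlt | hgt
    · -- the next cut belongs to the first reading again
      obtain ⟨c1, c2⟩ := IH v₁ v₂ U₁ U₂ c₁ c₂ h₁ h₂ hU hcut (a₁ + 1) (a₂ + 1) b₁ b₂ (ℓ - t)
        (by omega) (by omega) (by push_cast [Nat.cast_sub hlt.le]; omega)
        (by push_cast [Nat.cast_sub hlt.le]; omega) (by omega) (by omega)
        (by
          intro i hi'
          have := hov (t + i) (by omega)
          rw [hs1, hs2]
          push_cast at this
          rw [← add_assoc, ← add_assoc] at this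
          exact this)
        (by push_cast at hm; omega)
      refine ⟨fun i hi' => ?_, c2⟩
      cases i with
      | zero => simpa using hdet
      | succ i =>
        have := c1 i (by
          have e : a₂ + 1 + (i : ℤ) + 1 = a₂ + ((i + 1 : ℕ) : ℤ) + 1 := by push_cast; ring
          rw [e]; exact hi')
        have e1 : a₁ + ((i + 1 : ℕ) : ℤ) = a₁ + 1 + i := by push_cast; ring
        have e2 : a₂ + ((i + 1 : ℕ) : ℤ) = a₂ + 1 + i := by push_cast; ring
        rw [e1, e2]; exact this
    · -- the next cut belongs to the second reading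
      obtain ⟨c1, c2⟩ := IH v₂ v₁ U₂ U₁ c₂ c₁ h₂ h₁ (fun x hx hx' => (hU x hx hx').symm)
        (by
          intro b a hb hb' heq
          exact hcut a b (by omega) (by omega) heq.symm)
        b₁ b₂ (a₁ + 1) (a₂ + 1) (t - ℓ)
        (by omega) (by omega) (by push_cast [Nat.cast_sub hgt.le]; omega)
        (by push_cast [Nat.cast_sub hgt.le]; omega) (by omega) (by omega)
        (by
          intro i hi'
          have hv : ∀ a b : ℤ, lo ≤ c₁ a → c₁ a + 2 * tl θ ≤ hi → c₂ b = c₁ a + ℓ →
              ∀ h : ℓ + i < (θ (v₁ a)).length, U₂ (c₂ b + i) = (θ (v₁ a))[ℓ + i] := by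
            intro a b h1 h2 h3 h
            rw [← hU _ (by omega) (by
              have := length_le_tl θ (v₁ a)
              omega), h3]
            rw [← h₁.val a (ℓ + i) h]
            congr 1
            push_cast
            ring
          rw [hv a₁ b₁ hlo (by omega) hb1 (by omega), hv a₂ b₂ (by omega) (by omega) hb2 (by omega)]
          simp only [hdet])
        (by push_cast at hm; omega)
      refine ⟨fun i hi' => ?_, c1⟩
      cases i with
      | zero => simpa using hdet
      | succ i =>
        have := c2 i (by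
          have e : a₂ + 1 + (i : ℤ) + 1 = a₂ + ((i + 1 : ℕ) : ℤ) + 1 := by push_cast; ring
          rw [e]; exact hi')
        have e1 : a₁ + ((i + 1 : ℕ) : ℤ) = a₁ + 1 + i := by push_cast; ring
        have e2 : a₂ + ((i + 1 : ℕ) : ℤ) = a₂ + 1 + i := by push_cast; ring
        rw [e1, e2]; exact this

end Pool.Agent.H68.MW
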