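import Pool.Agent.H68.MW.RunC

/-! # Inheritance: the image of a long bi-fork that is periodic up to `K` letters at its ends is
again periodic up to `K` letters at its ends -/

set_option autoImplicit false

namespace Pool.Agent.H68.MW

section
variable {B : Type} [Fintype B] {τ : B → List B} {v : ℤ → B} {c : ℤ → ℤ}

theorem inhR_aux (hτ : Irred τ) (h : Img τ v v c) {K Λ P N P₀ : ℕ}
    (hK : ∀ x, 2 * ((K + 1 : ℕ) : ℤ) ≤ c (x + ((K + 1 : ℕ) : ℤ)) - c x) (hD : tl τ ≤ K + 1)
    (hKP : (tl τ) * P + P ≤ K + 1)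
    (hΛ0 : 0 < Λ) (hΛK : K + 1 ≤ Λ) (hΛ : ∀ π : ℕ, 0 < π → π ≤ P → π ∣ Λ) (hP : P₀ ≤ P)
    (hanc : AncEnd τ v v c (tl τ) N P₀) :
    ∃ H : ℕ, ∀ (α α' e e' r₁ : ℤ) (M n δ₀ q : ℕ),
      (∀ i : ℕ, i < M → v (α - M + i) = v (α' - M + i)) → v α ≠ v α' →
      (∀ i : ℕ, i < n → v (e - n + i) = v (e' - n + i)) →
      c α + δ₀ = e → c α' + δ₀ = e' → e - n ≤ c (α - M) → H ≤ M → 0 < q → q ≤ P →
      α - K ≤ r₁ → r₁ ≤ α → Per v q (α - M + K) r₁ → v r₁ ≠ v (r₁ - q) →
      ∃ π' : ℕ, 0 < π' ∧ π' ≤ P ∧ Per v π' (c (α - M + K)) (e - K) := by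
  obtain ⟨p, H₀, hp, hH₀, hC⟩ := ancC hτ h hK hD hKP hΛ0 hΛK hΛ hP hanc
  refine ⟨H₀ + 2 * K + P + tl τ * P, ?_⟩
  intro α α' e e' r₁ M n δ₀ q hM hαα hn he he' hen hHM hq0 hqP hr1 hr2 hper hbr
  set x₁ := α - (M : ℤ) + K with hx₁
  have hm : H₀ ≤ (r₁ - x₁).toNat := by omega
  have hmx : r₁ - ((r₁ - x₁).toNat : ℤ) = x₁ := by omega
  obtain ⟨hperS, δ, π', hFk, hπ'0, hπ'P, hper', hbr', hFF⟩ :=
    hC (r₁ - x₁).toNat q r₁ hm ⟨hq0, hqP, by rw [hmx]; exact hper, hbr⟩
  rw [hmx] at hper'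
  refine ⟨π', hπ'0, hπ'P, ?_⟩
  by_cases hre : e - K ≤ c r₁ + δ
  · exact hper'.mono le_rfl hre
  exfalso
  push Not at hre
  set r := c r₁ + (δ : ℤ) with hr
  set s := e' - e with hs
  have hcom : ∀ z, e - n ≤ z → z < e → v z = v (z + s) := by
    intro z hz hz'
    have := hn (z - (e - n)).toNat (by omega)
    have e1 : e - (n : ℤ) + ((z - (e - n)).toNat : ℤ) = z := by omega
    have e2 : e' - (n : ℤ) + ((z - (e - n)).toNat : ℤ) = z + s := by omega
    rw [e1, e2] at this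
    exact this
  set s₁ := α' - α with hs₁
  have hcom₁ : ∀ z, α - M ≤ z → z < α → v z = v (z + s₁) := by
    intro z hz hz'
    have := hM (z - (α - M)).toNat (by omega)
    have e1 : α - (M : ℤ) + ((z - (α - M)).toNat : ℤ) = z := by omega
    have e2 : α' - (M : ℤ) + ((z - (α - M)).toNat : ℤ) = z + s₁ := by omega
    rw [e1, e2] at this
    exact this
  have hcs : ∀ z, α - M ≤ z → z ≤ α → c (z + s₁) = c z + s := by
    intro z hz hz'
    have := h.cut_eq (a := z) (b := z + s₁) (k := (α - z).toNat) (by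
      intro i hi
      have := hcom₁ (z + i) (by omega) (by omega)
      rw [this]
      congr 1
      ring)
    have e1 : z + ((α - z).toNat : ℤ) = α := by omega
    have e2 : z + s₁ + ((α - z).toNat : ℤ) = α' := by omega
    rw [e1, e2] at this
    omega
  -- sizes
  have hcx : e - n ≤ c x₁ := le_trans hen (h.strictMono.monotone (by omega))
  have hcr : c x₁ + (r₁ - x₁) ≤ c r₁ := by
    have := h.add_le x₁ (r₁ - x₁).toNat
    have e1 : x₁ + ((r₁ - x₁).toNat : ℤ) = r₁ := by omega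
    rw [e1] at this
    omega
  have hH₀' : ((P + (tl τ) * Λ + (K + 1) + Λ : ℕ) : ℤ) ≤ H₀ := by exact_mod_cast hH₀
  have hHM' : ((H₀ + 2 * K + P + tl τ * P : ℕ) : ℤ) ≤ M := by exact_mod_cast hHM
  push_cast at hH₀' hHM'
  have hπ'P' : (π' : ℤ) ≤ P := by exact_mod_cast hπ'P
  have hDP0 : (0 : ℤ) ≤ (tl τ : ℤ) * P := by positivity
  have hDL0 : (0 : ℤ) ≤ (tl τ : ℤ) * Λ := by positivity
  have hrx : r - c x₁ ≥ H₀ + P + tl τ * P := by linarith
  -- transfer to the second occurrence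
  have hperT : Per v π' (c x₁ + s) (r + s) :=
    hper'.transfer (fun z hz hz' => hcom z (by omega) (by omega))
  have hbrT : v (r + s) ≠ v (r + s - π') := by
    have e1 := hcom r (by linarith) (by omega)
    have e2 := hcom (r - π') (by linarith) (by omega)
    have e3 : r - (π' : ℤ) + s = r + s - π' := by ring
    rw [e3] at e2
    rw [← e1, ← e2]
    exact hbr'
  have hstT : stt v (K + 1) (r + s) (r + s - Λ) = stt v (K + 1) r (r - Λ) := by
    rw [stt_eq_iff]
    constructor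
    · intro i hi
      have := hcom (r + i) (by linarith) (by omega)
      rw [this]
      congr 1
      ring
    · intro i hi
      have := hcom (r - Λ + i) (by linarith) (by omega)
      rw [this]
      congr 1
      ring
  have hcx' : c (x₁ + s₁) = c x₁ + s := hcs x₁ (by omega) (by omega)
  have hperT₁ : Per v q (x₁ + s₁) (α - K + s₁) :=
    (hper.mono le_rfl hr1).transfer (fun z hz hz' => hcom₁ z (by omega) (by omega))
  rcases hperT₁.extend' with hinf | ⟨r₁', hr₁', hper₁', hbr₁'⟩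
  · -- the second run never ends
    obtain ⟨m, hm1, hm2⟩ := h.exists_block (r + s)
    obtain ⟨q₀, hq₀1, hq₀2⟩ := h.per_image (hinf (max (m + 1) (x₁ + s₁ + q))) (le_max_right _ _)
    have hq₀le : (q₀ : ℤ) ≤ tl τ * P := by
      have := h.add_le' (x₁ + s₁) q
      have h2 : (q : ℤ) * tl τ ≤ (tl τ : ℤ) * P := by
        rw [mul_comm]
        exact mul_le_mul_of_nonneg_left (by exact_mod_cast hqP) (by positivity)
      omega
    have hq₀0 : 0 < q₀ := by
      have := h.add_le (x₁ + s₁) q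
      omega
    have h1 : c (max (m + 1) (x₁ + s₁ + q)) ≤ r + s := by
      refine perEnd_le (x := c x₁ + s) hperT hbrT (by rw [← hcx']; exact hq₀2) ?_ hq₀0
      linarith
    have h2 : c (m + 1) ≤ c (max (m + 1) (x₁ + s₁ + q)) :=
      h.strictMono.monotone (le_max_left _ _)
    omega
  · have hm' : H₀ ≤ (r₁' - (x₁ + s₁)).toNat := by omega
    have hmx' : r₁' - ((r₁' - (x₁ + s₁)).toNat : ℤ) = x₁ + s₁ := by omega
    obtain ⟨hperS', δ', π'', hFk', hπ''0, hπ''P, hper'', hbr'', hFF'⟩ :=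
      hC (r₁' - (x₁ + s₁)).toNat q r₁' hm' ⟨hq0, hqP, by rw [hmx']; exact hper₁', hbr₁'⟩
    rw [hmx', hcx'] at hper''
    have hcr' : c (x₁ + s₁) + (r₁' - (x₁ + s₁)) ≤ c r₁' := by
      have := h.add_le (x₁ + s₁) (r₁' - (x₁ + s₁)).toNat
      have e1 : x₁ + s₁ + ((r₁' - (x₁ + s₁)).toNat : ℤ) = r₁' := by omega
      rw [e1] at this
      omega
    have hπ''P' : (π'' : ℤ) ≤ P := by exact_mod_cast hπ''P
    have hKP' : (((tl τ) * P + P : ℕ) : ℤ) ≤ ((K + 1 : ℕ) : ℤ) := by exact_mod_cast hKP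
    push_cast at hKP'
    have hreq : r + s = c r₁' + δ' := by
      refine perEnd_eq (x := c x₁ + s) hπ'0 hπ''0 hperT hbrT hper'' hbr'' ?_ ?_
      · linarith
      · have : (H₀ : ℤ) ≤ r₁' - (x₁ + s₁) := by omega
        linarith
    have hFeq : FF v c (tl τ) (K + 1) (stt v (K + 1) r₁ (r₁ - Λ))
        = FF v c (tl τ) (K + 1) (stt v (K + 1) r₁' (r₁' - Λ)) := by
      rw [hFF, hFF', ← hreq, hstT]
    have hSeq : stt v (K + 1) r₁ (r₁ - Λ) = stt v (K + 1) r₁' (r₁' - Λ) := by
      obtain ⟨p', rfl⟩ : ∃ p', p = p' + 1 := ⟨p - 1, by omega⟩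
      rw [← hperS, ← hperS', Function.iterate_succ_apply, Function.iterate_succ_apply, hFeq]
    obtain ⟨hδ, -⟩ := stepdet h hK hD hFk hFk' hSeq
    have hc1 : c r₁' = c (r₁ + s₁) := by
      rw [hcs r₁ (by omega) hr2]
      rw [← hδ] at hreq
      omega
    have hr1eq : r₁' = r₁ + s₁ := h.strictMono.injective hc1
    apply hαα
    have := (stt_eq_iff.1 hSeq).1 (α - r₁).toNat (by omega)
    have e1 : r₁ + ((α - r₁).toNat : ℤ) = α := by omega
    have e2 : r₁' + ((α - r₁).toNat : ℤ) = α' := by omega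
    rw [e1, e2] at this
    exact this

theorem inhR (hτ : Irred τ) (h : Img τ v v c) {K Λ P N P₀ : ℕ}
    (hK : ∀ x, 2 * ((K + 1 : ℕ) : ℤ) ≤ c (x + ((K + 1 : ℕ) : ℤ)) - c x) (hD : tl τ ≤ K + 1)
    (hKP : (tl τ) * P + P ≤ K + 1)
    (hΛ0 : 0 < Λ) (hΛK : K + 1 ≤ Λ) (hΛ : ∀ π : ℕ, 0 < π → π ≤ P → π ∣ Λ) (hP : P₀ ≤ P)
    (hanc : AncEnd τ v v c (tl τ) N P₀) :
    ∃ H : ℕ, ∀ (α α' e e' : ℤ) (M n δ₀ q : ℕ),
      (∀ i : ℕ, i < M → v (α - M + i) = v (α' - M + i)) → v α ≠ v α' →
      (∀ i : ℕ, i < n → v (e - n + i) = v (e' - n + i)) →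
      c α + δ₀ = e → c α' + δ₀ = e' → e - n ≤ c (α - M) → H ≤ M → 0 < q → q ≤ P →
      Per v q (α - M + K) (α - K) →
      ∃ π' : ℕ, 0 < π' ∧ π' ≤ P ∧ Per v π' (c (α - M + K)) (e - K) := by
  obtain ⟨H, hH⟩ := inhR_aux hτ h hK hD hKP hΛ0 hΛK hΛ hP hanc
  refine ⟨H + 2 * K + P, ?_⟩
  intro α α' e e' M n δ₀ q hM hαα hn he he' hen hHM hq0 hqP hper
  have hcα : ∀ z, α - M ≤ z → z ≤ α → c (z + (α' - α)) = c z + (e' - e) := by
    intro z hz hz'
    have := h.cut_eq (a := z) (b := z + (α' - α)) (k := (α - z).toNat) (by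
      intro i hi
      have := hM (z + i - (α - M)).toNat (by omega)
      have e1 : α - (M : ℤ) + ((z + i - (α - M)).toNat : ℤ) = z + i := by omega
      have e2 : α' - (M : ℤ) + ((z + i - (α - M)).toNat : ℤ) = z + (α' - α) + i := by omega
      rw [e1, e2] at this
      exact this)
    have e1 : z + ((α - z).toNat : ℤ) = α := by omega
    have e2 : z + (α' - α) + ((α - z).toNat : ℤ) = α' := by omega
    rw [e1, e2] at this
    omega
  rcases hper.extend (K + 1) with h1 | ⟨r₁, h1, h2, h3, h4⟩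
  · have hperT : Per v q (α' - M + K) (α' - K) := by
      have := hper.transfer (s := α' - α) (fun z hz hz' => by
        have := hM (z - (α - M)).toNat (by omega)
        have e1 : α - (M : ℤ) + ((z - (α - M)).toNat : ℤ) = z := by omega
        have e2 : α' - (M : ℤ) + ((z - (α - M)).toNat : ℤ) = z + (α' - α) := by omega
        rw [e1, e2] at this
        exact this)
      have e1 : α - (M : ℤ) + K + (α' - α) = α' - M + K := by ring
      have e2 : α - (K : ℤ) + (α' - α) = α' - K := by ring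
      rw [e1, e2] at this
      exact this
    rcases hperT.extend (K + 1) with g1 | ⟨r₁, g1, g2, g3, g4⟩
    · exfalso
      apply hαα
      have a1 := h1 (α - q) (by omega) (by push_cast; omega)
      have a2 := g1 (α' - q) (by omega) (by push_cast; omega)
      rw [sub_add_cancel] at a1 a2
      rw [← a1, ← a2]
      have := hM (M - q) (by omega)
      have e1 : α - (M : ℤ) + ((M - q : ℕ) : ℤ) = α - q := by omega
      have e2 : α' - (M : ℤ) + ((M - q : ℕ) : ℤ) = α' - q := by omega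
      rw [e1, e2] at this
      exact this
    · obtain ⟨π', k1, k2, k3⟩ := hH α' α e' e r₁ M n δ₀ q (fun i hi => (hM i hi).symm)
        (Ne.symm hαα) (fun i hi => (hn i hi).symm) he' he (by
          have := hcα (α - M) le_rfl (by omega)
          have e1 : α - (M : ℤ) + (α' - α) = α' - M := by ring
          rw [e1] at this
          omega) (by omega) hq0 hqP g1 (by push_cast at g2; omega) g3 g4
      refine ⟨π', k1, k2, ?_⟩
      have hcc := hcα (α - M + K) (by omega) (by omega)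
      have e1 : α - (M : ℤ) + K + (α' - α) = α' - M + K := by ring
      rw [e1] at hcc
      rw [hcc] at k3
      have hcx : e - n ≤ c (α - M + K) := le_trans hen (h.strictMono.monotone (by omega))
      have := k3.transfer (s := e - e') (fun z hz hz' => by
        have := hn (z + (e - e') - (e - n)).toNat (by omega)
        have a1 : e - (n : ℤ) + ((z + (e - e') - (e - n)).toNat : ℤ) = z + (e - e') := by omega
        have a2 : e' - (n : ℤ) + ((z + (e - e') - (e - n)).toNat : ℤ) = z := by omega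
        rw [a1, a2] at this
        exact this.symm)
      have e2 : c (α - M + K) + (e' - e) + (e - e') = c (α - M + K) := by ring
      have e3 : e' - (K : ℤ) + (e - e') = e - K := by ring
      rw [e2, e3] at this
      exact this
  · exact hH α α' e e' r₁ M n δ₀ q hM hαα hn he he' hen (by omega) hq0 hqP h1
      (by push_cast at h2; omega) h3 h4

end

end Pool.Agent.H68.MW
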