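import Pool.Agent.H68.MW.Inh

/-! # Inheritance (two-sided) -/

set_option autoImplicit false

namespace Pool.Agent.H68.MW

theorem inh_of {B : Type} [Fintype B] {τ : B → List B} {v : ℤ → B} {c : ℤ → ℤ} (hτ : Irred τ)
    (h : Img τ v v c)
    (hE : ∃ L₀ : ℕ, ∀ (x : ℤ) (n : ℕ), L₀ ≤ n → 2 * (n : ℤ) ≤ c (x + n) - c x)
    (hA1 : ∃ N P : ℕ, AncEnd τ v v c (tl τ) N P)
    (hA2 : ∃ N P : ℕ, AncEnd (fun b => (τ b).reverse) (fun n => v (-1 - n)) (fun n => v (-1 - n))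
      (fun n => -c (-n)) (tl τ) N P) :
    ∃ P₀ : ℕ, ∀ P, P₀ ≤ P → ∃ K₀ : ℕ, ∀ K, K₀ ≤ K → ∃ H : ℕ,
      ∀ (α α' : ℤ) (M : ℕ) (e e' : ℤ) (n : ℕ),
      BiF v α α' M → BiF v e e' n → Lift c (tl τ) α α' M e e' n → H ≤ M →
      (∃ q : ℕ, 0 < q ∧ q ≤ P ∧ Per v q (α - M + K) (α - K)) →
      ∃ q : ℕ, 0 < q ∧ q ≤ P ∧ Per v q (e - n + K) (e - K) := by
  obtain ⟨L₀, hE⟩ := hE
  obtain ⟨N₁, P₁, hA1⟩ := hA1
  obtain ⟨N₂, P₂, hA2⟩ := hA2
  refine ⟨max P₁ P₂, fun P hP => ⟨max L₀ (max (tl τ) ((tl τ) * P + P)), fun K hK => ?_⟩⟩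
  have hK1 : L₀ ≤ K := le_trans (le_max_left _ _) hK
  have hK2 : tl τ ≤ K := le_trans (le_trans (le_max_left _ _) (le_max_right _ _)) hK
  have hK3 : (tl τ) * P + P ≤ K := le_trans (le_trans (le_max_right _ _) (le_max_right _ _)) hK
  have hP1 : P₁ ≤ P := le_trans (le_max_left _ _) hP
  have hP2 : P₂ ≤ P := le_trans (le_max_right _ _) hP
  have hΛ0 : 0 < (K + 1) * P.factorial := Nat.mul_pos (by omega) P.factorial_pos
  have hΛK : K + 1 ≤ (K + 1) * P.factorial := Nat.le_mul_of_pos_right _ P.factorial_pos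
  have hΛ : ∀ π : ℕ, 0 < π → π ≤ P → π ∣ (K + 1) * P.factorial := fun π h1 h2 =>
    Dvd.dvd.mul_left (Nat.dvd_factorial h1 h2) _
  have hτ' := hτ.reverse
  have h' := h.mirror
  obtain ⟨H₁, hH₁⟩ := inhR hτ h (K := K) (fun x => by
    have := hE x (K + 1) (by omega)
    exact this) (by omega) (by omega) hΛ0 hΛK hΛ hP1 hA1
  obtain ⟨H₂, hH₂⟩ := inhR hτ' h' (K := K) (Λ := (K + 1) * P.factorial) (P := P) (N := N₂)
    (P₀ := P₂) (fun x => by
    have := hE (-(x + ((K + 1 : ℕ) : ℤ))) (K + 1) (by omega)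
    have e1 : -(x + ((K + 1 : ℕ) : ℤ)) + ((K + 1 : ℕ) : ℤ) = -x := by ring
    rw [e1] at this
    omega) (by rw [tl_reverse]; omega) (by rw [tl_reverse]; omega) hΛ0 hΛK hΛ hP2
    (by rw [tl_reverse]; exact hA2)
  refine ⟨max H₁ H₂ + 2 * K + 2 * P, ?_⟩
  intro α α' M e e' n hbf hbf' hL hHM hq
  obtain ⟨hM, hαα, hll⟩ := hbf
  obtain ⟨hn, hee, hll'⟩ := hbf'
  obtain ⟨δ, ε, hδ, hε, c1, c2, c3, c4⟩ := hL
  obtain ⟨q, hq0, hqP, hper⟩ := hq
  have hm1 : H₁ ≤ max H₁ H₂ := le_max_left _ _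
  have hm2 : H₂ ≤ max H₁ H₂ := le_max_right _ _
  obtain ⟨π', a1, a2, a3⟩ := hH₁ α α' e e' M n δ q hM hαα hn c1 c2 (by omega) (by omega) hq0 hqP hper
  obtain ⟨π'', b1, b2, b3⟩ := hH₂ (-(α - M)) (-(α' - M)) (-(e - n)) (-(e' - n)) M n ε q
    (by
      intro i hi
      have := hM (M - 1 - i) (by omega)
      have e1 : α - (M : ℤ) + ((M - 1 - i : ℕ) : ℤ) = -1 - (-(α - M) - M + i) := by omega
      have e2 : α' - (M : ℤ) + ((M - 1 - i : ℕ) : ℤ) = -1 - (-(α' - M) - M + i) := by omega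
      rw [e1, e2] at this
      exact this)
    (by
      have e1 : -1 - (-(α - (M : ℤ))) = α - M - 1 := by ring
      have e2 : -1 - (-(α' - (M : ℤ))) = α' - M - 1 := by ring
      rw [e1, e2]
      exact hll)
    (by
      intro i hi
      have := hn (n - 1 - i) (by omega)
      have e1 : e - (n : ℤ) + ((n - 1 - i : ℕ) : ℤ) = -1 - (-(e - n) - n + i) := by omega
      have e2 : e' - (n : ℤ) + ((n - 1 - i : ℕ) : ℤ) = -1 - (-(e' - n) - n + i) := by omega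
      rw [e1, e2] at this
      exact this)
    (by rw [neg_neg]; omega) (by rw [neg_neg]; omega)
    (by
      have e1 : -(-(α - (M : ℤ)) - M) = α := by ring
      rw [e1]
      omega)
    (by omega) hq0 hqP
    (by
      have := hper.mirror
      have e1 : -(α - (K : ℤ)) = -(α - M) - M + K := by ring
      have e2 : -(α - (M : ℤ) + K) = -(α - M) - K := by ring
      rw [e1, e2] at this
      exact this)
  have b4 := b3.mirror
  have e1 : -(-(-(-(α - (M : ℤ)) - M + K))) = -(-(α - (M : ℤ)) - M + K) := by ring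
  have hvv : (fun n : ℤ => (fun n : ℤ => v (-1 - n)) (-1 - n)) = v := by
    funext n
    show v (-1 - (-1 - n)) = v n
    congr 1
    ring
  rw [hvv] at b4
  have e2 : -(-c (-(-(α - (M : ℤ)) - M + K))) = c (α - K) := by
    rw [neg_neg]
    congr 1
    ring
  have e3 : -(-(e - (n : ℤ)) - K) = e - n + K := by ring
  rw [e2, e3] at b4
  refine ⟨π', a1, a2, a3.union b4 b1 ?_ ?_ ?_⟩
  · have := h.add_le (α - M) K
    omega
  · have := h.add_le (α - K) K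
    rw [sub_add_cancel] at this
    omega
  · have := h.add_le (α - M + K) (M - 2 * K)
    have e4 : α - (M : ℤ) + K + ((M - 2 * K : ℕ) : ℤ) = α - K := by omega
    rw [e4] at this
    omega

end Pool.Agent.H68.MW
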