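import Pool.Agent.H68.MW.BiFork

/-! # Elementary lemmas on periodic intervals -/

set_option autoImplicit false

namespace Pool.Agent.H68.MW

section
variable {B : Type} {v : ℤ → B}

theorem Per.mono {π : ℕ} {x y x' y' : ℤ} (h : Per v π x y) (hx : x ≤ x') (hy : y' ≤ y) :
    Per v π x' y' := fun i hi hi' => h i (by omega) (by omega)

theorem Per.mul {π : ℕ} {x y : ℤ} (h : Per v π x y) (k : ℕ) : Per v (k * π) x y := by
  induction k with
  | zero => intro i _ _; simp
  | succ k ih =>
    intro i hi hi'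
    have e : ((((k + 1) * π : ℕ)) : ℤ) = ((k * π : ℕ) : ℤ) + π := by push_cast; ring
    rw [e] at hi' ⊢
    rw [ih i hi (by omega), h (i + ((k * π : ℕ) : ℤ)) (by omega) (by omega)]
    congr 1
    ring

theorem Per.dvd {π Λ : ℕ} {x y : ℤ} (h : Per v π x y) (hd : π ∣ Λ) : Per v Λ x y := by
  obtain ⟨k, rfl⟩ := hd
  rw [Nat.mul_comm]
  exact h.mul k

theorem Per.congr {q : ℕ} {x y i j : ℤ} (h : Per v q x y) (hi : x ≤ i) (hi' : i < y)
    (hj : x ≤ j) (hj' : j < y) (hd : (q : ℤ) ∣ j - i) : v i = v j := by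
  wlog hij : i ≤ j generalizing i j
  · exact (this hj hj' hi hi' (by rw [← neg_sub]; exact (dvd_neg).2 hd) (by omega)).symm
  obtain ⟨k, hk⟩ := hd
  rcases Nat.eq_zero_or_pos q with h0 | h0
  · subst h0
    simp at hk
    rw [show j = i by omega]
  · have hk0 : 0 ≤ k := by
      by_contra hneg
      push Not at hneg
      have : (q : ℤ) * k < 0 := mul_neg_of_pos_of_neg (by exact_mod_cast h0) hneg
      omega
    obtain ⟨k', rfl⟩ : ∃ k' : ℕ, k = k' := ⟨k.toNat, by omega⟩
    have := h.mul k' i hi (by push_cast; rw [mul_comm]; omega)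
    rw [this]
    congr 1
    push_cast
    rw [mul_comm]
    omega

/-- a `q`-periodic interval with a long `π`-periodic window is `π`-periodic -/
theorem Per.upgrade {q π : ℕ} {x y w : ℤ} (h : Per v q x y) (hq : 0 < q) (hw : Per v π w (w + q + π))
    (hxw : x ≤ w) (hwy : w + q + π ≤ y) : Per v π x y := by
  intro i hi hi'
  have hq' : (0 : ℤ) < q := by exact_mod_cast hq
  have h1 := Int.emod_nonneg (i - w) hq'.ne'
  have h2 := Int.emod_lt_of_pos (i - w) hq'
  have h3 := Int.emod_add_mul_ediv (i - w) q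
  set ρ := (i - w) % q with hρ
  set κ := (i - w) / q with hκ
  have e1 : v i = v (w + ρ) := h.congr hi (by omega) (by omega) (by omega) ⟨-κ, by linarith⟩
  have e2 : v (i + π) = v (w + ρ + π) :=
    h.congr (by omega) (by omega) (by omega) (by omega) ⟨-κ, by linarith⟩
  rw [e1, e2]
  exact hw (w + ρ) (by omega) (by omega)

/-- union of two overlapping periodic intervals -/
theorem Per.union {p p₂ : ℕ} {x₁ y₁ x₂ y₂ : ℤ} (h₁ : Per v p x₁ y₁) (h₂ : Per v p₂ x₂ y₂)
    (hp₂ : 0 < p₂) (hx : x₂ ≤ x₁) (hy : y₂ ≤ y₁) (hov : x₁ + p₂ + p ≤ y₂) : Per v p x₂ y₁ := by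
  have h3 : Per v p x₂ y₂ := h₂.upgrade hp₂ (w := x₁) (h₁.mono le_rfl (by omega)) hx hov
  intro i hi hi'
  by_cases hc : i + p < y₂
  · exact h3 i hi hc
  · exact h₁ i (by omega) hi'

theorem Per.transfer {π : ℕ} {x y s : ℤ} (h : Per v π x y)
    (hs : ∀ z, x ≤ z → z < y → v z = v (z + s)) : Per v π (x + s) (y + s) := by
  intro i hi hi'
  have h1 := hs (i - s) (by omega) (by omega)
  have h2 := hs (i - s + π) (by omega) (by omega)
  have h3 := h (i - s) (by omega) (by omega)
  rw [h1, h2] at h3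
  have e1 : i - s + s = i := by ring
  have e2 : i - s + π + s = i + π := by ring
  rw [e1, e2] at h3
  exact h3

/-- extension of a periodic interval to the right -/
theorem Per.extend {q : ℕ} {x y : ℤ} (h : Per v q x y) (k : ℕ) :
    Per v q x (y + k) ∨ ∃ r, y ≤ r ∧ r < y + k ∧ Per v q x r ∧ v r ≠ v (r - q) := by
  induction k with
  | zero => left; simpa using h
  | succ k ih =>
    rcases ih with ih | ⟨r, h1, h2, h3, h4⟩
    · by_cases hv : v (y + k) = v (y + k - q)
      · left
        intro i hi hi'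
        by_cases hc : i + q < y + k
        · exact ih i hi hc
        · have e : i + (q : ℤ) = y + k := by push_cast at hi'; omega
          rw [e, hv]
          congr 1
          omega
      · right
        exact ⟨y + k, by omega, by push_cast; omega, ih, hv⟩
    · right
      exact ⟨r, h1, by push_cast; omega, h3, h4⟩

theorem Per.extend' {q : ℕ} {x y : ℤ} (h : Per v q x y) :
    (∀ z, Per v q x z) ∨ ∃ r, y ≤ r ∧ Per v q x r ∧ v r ≠ v (r - q) := by
  by_cases hc : ∃ r, y ≤ r ∧ Per v q x r ∧ v r ≠ v (r - q)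
  · exact Or.inr hc
  · left
    intro z
    rcases le_total z y with hz | hz
    · exact h.mono le_rfl hz
    · rcases h.extend (z - y).toNat with h1 | ⟨r, h1, -, h3, h4⟩
      · exact h1.mono le_rfl (by omega)
      · exact absurd ⟨r, h1, h3, h4⟩ hc

/-- mirror -/
theorem Per.mirror {π : ℕ} {x y : ℤ} (h : Per v π x y) :
    Per (fun n => v (-1 - n)) π (-y) (-x) := by
  intro i hi hi'
  have := h (-1 - (i + π)) (by omega) (by omega)
  have e : -1 - (i + (π : ℤ)) + π = -1 - i := by ring
  rw [e] at this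
  exact this.symm

end

/-- ends of overlapping periodic intervals coincide -/
theorem perEnd_le {A : Type} {U : ℤ → A} {π q : ℕ} {x r r' : ℤ} 
    (h1 : Per U π x r) (h1' : U r ≠ U (r - π)) (h2 : Per U q x r') 
    (h3 : x + π + q ≤ r) (hq : 0 < q) : r' ≤ r := by
  by_contra hlt
  push Not at hlt
  apply h1'
  have a1 : U (r - q) = U r := by
    have := h2 (r - q) (by omega) (by omega)
    rwa [sub_add_cancel] at this
  have a2 : U (r - q - π) = U (r - q) := by
    have := h1 (r - q - π) (by omega) (by omega)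
    rwa [sub_add_cancel] at this
  have a3 : U (r - q - π) = U (r - π) := by
    have := h2 (r - q - π) (by omega) (by omega)
    rw [this]
    congr 1
    ring
  rw [← a1, ← a2, a3]

theorem perEnd_eq {A : Type} {U : ℤ → A} {π q : ℕ} {x r r' : ℤ} (hπ : 0 < π) (hq : 0 < q)
    (h1 : Per U π x r) (h1' : U r ≠ U (r - π)) (h2 : Per U q x r') (h2' : U r' ≠ U (r' - q))
    (h3 : x + π + q ≤ r) (h4 : x + π + q ≤ r') : r = r' :=
  le_antisymm (perEnd_le h2 h2' h1 (by omega) hπ) (perEnd_le h1 h1' h2 h3 hq)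

/-- image of the right end of a periodic interval -/
theorem Img.end_image {B A : Type} {θ : B → List A} {v : ℤ → B} {U : ℤ → A} {c : ℤ → ℤ}
    (h : Img θ v U c) {π : ℕ} {x r : ℤ} (hper : Per v π x r) (hxr : x + π ≤ r) {δ : ℕ}
    (hδ : ∀ i : ℕ, i < δ → U (c r + i) = U (c (r - π) + i))
    (hδ2 : U (c r + δ) ≠ U (c (r - π) + δ)) :
    ∃ q : ℕ, (q : ℤ) = c r - c (r - π) ∧ (q : ℤ) = c (x + π) - c x ∧ π ≤ q ∧
      Per U q (c x) (c r + δ) ∧ U (c r + δ) ≠ U (c r + δ - q) := by
  obtain ⟨q, hq1, hq2⟩ := h.per_image hper hxr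
  obtain ⟨k, hk⟩ : ∃ k : ℕ, r = x + π + k := ⟨(r - x - π).toNat, by omega⟩
  have hk2 : ∀ i : ℕ, i < k → v (x + i) = v (x + π + i) := by
    intro i hi
    have := hper (x + i) (by omega) (by omega)
    rw [this]
    congr 1
    ring
  have h1 := h.cut_eq hk2
  have e1 : x + (k : ℤ) = r - π := by omega
  rw [e1, ← hk] at h1
  have h2 := h.add_le x π
  refine ⟨q, by omega, hq1, by omega, ?_, ?_⟩
  · intro z hz1 hz2
    by_cases hz : z + q < c r
    · exact hq2 z hz1 hz
    · have := hδ (z + q - c r).toNat (by omega)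
      have a1 : c r + ((z + q - c r).toNat : ℤ) = z + q := by omega
      have a2 : c (r - π) + ((z + q - c r).toNat : ℤ) = z := by omega
      rw [a1, a2] at this
      exact this.symm
  · have a : c r + (δ : ℤ) - q = c (r - π) + δ := by omega
    rw [a]
    exact hδ2

end Pool.Agent.H68.MW
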