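import Pool.Agent.H68.MW.PerLem

/-! # Right ends of long runs: finite-state evolution -/

set_option autoImplicit false

namespace Pool.Agent.H68.MW

/-- the state of a fork pair -/
def stt {B : Type} (v : ℤ → B) (K : ℕ) (x y : ℤ) : (Fin K → B) × (Fin K → B) :=
  (fun i => v (x + i), fun i => v (y + i))

theorem stt_eq_iff {B : Type} {v : ℤ → B} {K : ℕ} {x y x₂ y₂ : ℤ} :
    stt v K x y = stt v K x₂ y₂ ↔
      (∀ i : ℕ, i < K → v (x + i) = v (x₂ + i)) ∧ (∀ i : ℕ, i < K → v (y + i) = v (y₂ + i)) := by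
  simp only [stt, Prod.mk.injEq, funext_iff]
  constructor
  · rintro ⟨h1, h2⟩
    exact ⟨fun i hi => h1 ⟨i, hi⟩, fun i hi => h2 ⟨i, hi⟩⟩
  · rintro ⟨h1, h2⟩
    exact ⟨fun i => h1 i i.2, fun i => h2 i i.2⟩

/-- `δ` is the length of the common prefix of the images from the cuts at `x` and `y` -/
def Fk {B A : Type} (v : ℤ → B) (U : ℤ → A) (c : ℤ → ℤ) (D : ℕ) (x y : ℤ) (δ : ℕ) : Prop :=
  v x ≠ v y ∧ δ < D ∧ (∀ i : ℕ, i < δ → U (c x + i) = U (c y + i)) ∧ U (c x + δ) ≠ U (c y + δ)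

section
variable {B : Type} {τ : B → List B} {v : ℤ → B} {c : ℤ → ℤ}

theorem stepdet (h : Img τ v v c) {K D : ℕ} (hK : ∀ x, 2 * (K : ℤ) ≤ c (x + K) - c x)
    (hD : D ≤ K) {x y x₂ y₂ : ℤ} {δ δ₂ : ℕ} (h1 : Fk v v c D x y δ) (h2 : Fk v v c D x₂ y₂ δ₂)
    (hs : stt v K x y = stt v K x₂ y₂) :
    δ = δ₂ ∧ stt v K (c x + δ) (c y + δ) = stt v K (c x₂ + δ₂) (c y₂ + δ₂) := by
  rw [stt_eq_iff] at hs
  obtain ⟨hs1, hs2⟩ := hs
  have hx : ∀ i : ℕ, i < 2 * K → v (c x + i) = v (c x₂ + i) := by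
    intro i hi
    refine h.val_eq hs1 i ?_
    have := hK x
    omega
  have hy : ∀ i : ℕ, i < 2 * K → v (c y + i) = v (c y₂ + i) := by
    intro i hi
    refine h.val_eq hs2 i ?_
    have := hK y
    omega
  obtain ⟨-, a1, a2, a3⟩ := h1
  obtain ⟨-, b1, b2, b3⟩ := h2
  have hδ : δ = δ₂ := by
    rcases lt_trichotomy δ δ₂ with hlt | heq | hgt
    · exfalso
      apply a3
      rw [hx δ (by omega), hy δ (by omega)]
      exact b2 δ hlt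
    · exact heq
    · exfalso
      apply b3
      rw [← hx δ₂ (by omega), ← hy δ₂ (by omega)]
      exact a2 δ₂ hgt
  subst hδ
  refine ⟨rfl, ?_⟩
  rw [stt_eq_iff]
  constructor
  · intro i hi
    have := hx (δ + i) (by omega)
    push_cast at this
    rw [← add_assoc, ← add_assoc] at this
    exact this
  · intro i hi
    have := hy (δ + i) (by omega)
    push_cast at this
    rw [← add_assoc, ← add_assoc] at this
    exact this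

open Classical in
/-- evolution of states -/
noncomputable def FF (v : ℤ → B) (c : ℤ → ℤ) (D K : ℕ) (s : (Fin K → B) × (Fin K → B)) :
    (Fin K → B) × (Fin K → B) :=
  if hs : ∃ (p : ℤ × ℤ × ℕ), Fk v v c D p.1 p.2.1 p.2.2 ∧ stt v K p.1 p.2.1 = s then
    stt v K (c hs.choose.1 + hs.choose.2.2) (c hs.choose.2.1 + hs.choose.2.2) else s

theorem FF_eq (h : Img τ v v c) {K D : ℕ} (hK : ∀ x, 2 * (K : ℤ) ≤ c (x + K) - c x)
    (hD : D ≤ K) {x y : ℤ} {δ : ℕ} (h1 : Fk v v c D x y δ) :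
    FF v c D K (stt v K x y) = stt v K (c x + δ) (c y + δ) := by
  have hs : ∃ (p : ℤ × ℤ × ℕ), Fk v v c D p.1 p.2.1 p.2.2 ∧ stt v K p.1 p.2.1 = stt v K x y :=
    ⟨(x, y, δ), h1, rfl⟩
  rw [FF, dif_pos hs]
  exact (stepdet h hK hD hs.choose_spec.1 h1 hs.choose_spec.2).2

/-- right end of a run of period `π ≤ P` and length at least `m` -/
def REnd (v : ℤ → B) (P : ℕ) (m : ℕ) (π : ℕ) (r : ℤ) : Prop :=
  0 < π ∧ π ≤ P ∧ Per v π (r - m) r ∧ v r ≠ v (r - π)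

theorem REnd.mono {P m m' π : ℕ} {r : ℤ} (h : REnd v P m π r) (hm : m' ≤ m) : REnd v P m' π r :=
  ⟨h.1, h.2.1, h.2.2.1.mono (by omega) le_rfl, h.2.2.2⟩

theorem REnd.lam {P m π Λ : ℕ} {r : ℤ} (h : REnd v P m π r) (hd : π ∣ Λ) (hm : Λ ≤ m) (hΛ : 0 < Λ) :
    v r ≠ v (r - Λ) := by
  have hle := Nat.le_of_dvd hΛ hd
  have := h.2.2.1.congr (i := r - Λ) (j := r - π) (by omega) (by omega) (by omega)
    (by have := h.1; omega) (by
      obtain ⟨k, rfl⟩ := hd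
      exact ⟨(k : ℤ) - 1, by push_cast; ring⟩)
  rw [this]
  exact h.2.2.2

/-- the property of `anc_end` -/
def AncEnd {B A : Type} (θ : B → List A) (v : ℤ → B) (U : ℤ → A) (c : ℤ → ℤ) (D N P : ℕ) : Prop :=
  ∀ (π : ℕ) (x r : ℤ), 0 < π → Per U π x r → U r ≠ U (r - π) → x + N * (π + 1) ≤ r →
    ∃ (π₁ : ℕ) (x₁ r₁ : ℤ) (δ : ℕ), 0 < π₁ ∧ x₁ + π₁ ≤ r₁ ∧ Per v π₁ x₁ r₁ ∧ v r₁ ≠ v (r₁ - π₁) ∧
      c (x₁ + π₁) - c x₁ ≤ max P π ∧ x ≤ c x₁ ∧ c x₁ ≤ x + N + π ∧ c r₁ + δ = r ∧ δ < D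

end

section
variable {B : Type} [Fintype B] {τ : B → List B} {v : ℤ → B} {c : ℤ → ℤ}

/-- ancestors of right ends -/
theorem ancA (hτ : Irred τ) (h : Img τ v v c) {K Λ P N P₀ m π : ℕ} {r : ℤ}
    (hK : ∀ x, 2 * (K : ℤ) ≤ c (x + K) - c x) (hD : tl τ ≤ K) 
    (hΛ0 : 0 < Λ) (hΛK : K ≤ Λ) (hΛ : ∀ π : ℕ, 0 < π → π ≤ P → π ∣ Λ) (hP : P₀ ≤ P)
    (hanc : AncEnd τ v v c (tl τ) N P₀) (hr : REnd v P m π r)
    (m₁ : ℕ) (hm₁ : P + (tl τ) * Λ + K + Λ ≤ m₁)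
    (hm : N * (P + 1) + (tl τ) * m₁ + P + tl τ ≤ m) :
    ∃ (π₁ : ℕ) (r₁ : ℤ), REnd v P m₁ π₁ r₁ ∧
      FF v c (tl τ) K (stt v K r₁ (r₁ - Λ)) = stt v K r (r - Λ) := by
  obtain ⟨hπ0, hπP, hper, hbr⟩ := hr
  have hNP : N * (π + 1) ≤ N * (P + 1) := Nat.mul_le_mul_left _ (by omega)
  have hNN : N ≤ N * (P + 1) := Nat.le_mul_of_pos_right _ (by omega)
  obtain ⟨π₁, x₁, r₁, δ, a1, a2, a3, a4, a5, a6, a7, a8, a9⟩ :=
    hanc π (r - m) r hπ0 hper hbr (by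
      have : ((N * (π + 1) : ℕ) : ℤ) ≤ ((N * (P + 1) : ℕ) : ℤ) := by exact_mod_cast hNP
      push_cast at this
      have h2 : ((N * (P + 1) + (tl τ) * m₁ + P + tl τ : ℕ) : ℤ) ≤ m := by exact_mod_cast hm
      push_cast at h2
      have h3 : (0 : ℤ) ≤ (tl τ : ℤ) * m₁ := by positivity
      linarith)
  have hπ₁P : π₁ ≤ P := by
    have := h.add_le x₁ π₁
    omega
  -- length of the ancestor
  have hlen : x₁ + m₁ ≤ r₁ := by
    by_contra hlt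
    push Not at hlt
    obtain ⟨k, hk⟩ : ∃ k : ℕ, r₁ = x₁ + k := ⟨(r₁ - x₁).toNat, by omega⟩
    have h1 := h.add_le' x₁ k
    rw [← hk] at h1
    have hkm : k ≤ m₁ := by omega
    have h2 : (k : ℤ) * tl τ ≤ (tl τ : ℤ) * m₁ := by
      rw [mul_comm]
      exact mul_le_mul_of_nonneg_left (by exact_mod_cast hkm) (by positivity)
    have h3 : ((N * (P + 1) + (tl τ) * m₁ + P + tl τ : ℕ) : ℤ) ≤ m := by exact_mod_cast hm
    push_cast at h3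
    have h4 : (N : ℤ) ≤ N * (P + 1) := by exact_mod_cast hNN
    have h5 : (π : ℤ) ≤ P := by exact_mod_cast hπP
    have h6 : (δ : ℤ) < tl τ := by exact_mod_cast a9
    linarith
  have hR : REnd v P m₁ π₁ r₁ := ⟨a1, hπ₁P, a3.mono (by omega) le_rfl, a4⟩
  refine ⟨π₁, r₁, hR, ?_⟩
  have hlam := hR.lam (hΛ π₁ a1 hπ₁P) (by omega) hΛ0
  obtain ⟨δ₂, b1, b2, b3⟩ := h.delta hτ hlam
  have hFk : Fk v v c (tl τ) r₁ (r₁ - Λ) δ₂ := ⟨hlam, b1, b2, b3⟩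
  rw [FF_eq h hK hD hFk]
  obtain ⟨q, q1, q2, q3, q4, q5⟩ := h.end_image (π := Λ) (x := r₁ - m₁) (r := r₁)
    (hR.2.2.1.dvd (hΛ π₁ a1 hπ₁P)) (by omega) b2 b3
  have hqle : (q : ℤ) ≤ (tl τ : ℤ) * Λ := by
    have := h.add_le' (r₁ - m₁) Λ
    rw [mul_comm] at this
    omega
  have hcx : r - m ≤ c (r₁ - m₁) := by
    have := h.strictMono.monotone (show x₁ ≤ r₁ - (m₁ : ℤ) by omega)
    omega
  have hcr : c (r₁ - m₁) + m₁ ≤ c r₁ := by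
    have := h.add_le (r₁ - m₁) m₁
    rwa [sub_add_cancel] at this
  have hm₁' : ((P + (tl τ) * Λ + K + Λ : ℕ) : ℤ) ≤ m₁ := by exact_mod_cast hm₁
  push_cast at hm₁'
  have hreq : r = c r₁ + δ₂ := by
    refine perEnd_eq (x := c (r₁ - m₁)) hπ0 (by omega) (hper.mono hcx le_rfl) hbr q4 q5 ?_ ?_
    · have : (π : ℤ) ≤ P := by exact_mod_cast hπP
      linarith
    · have : (π : ℤ) ≤ P := by exact_mod_cast hπP
      linarith
  rw [← hreq] at q4 ⊢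
  rw [stt_eq_iff]
  refine ⟨fun i _ => rfl, fun i hi => ?_⟩
  have hLam : Per v Λ (c (r₁ - m₁)) r := (hper.mono hcx le_rfl).dvd (hΛ π hπ0 hπP)
  have e1 : c (r₁ - Λ) + (δ₂ : ℤ) = r - q := by omega
  rw [e1]
  have hr2 : c r₁ ≤ r := by omega
  -- both equal `v (r - q - Λ + i)`
  have f1 := q4 (r - q - Λ + i) (by linarith) (by omega)
  have f2 := hLam (r - q - Λ + i) (by linarith) (by omega)
  have g1 : r - (q : ℤ) - Λ + i + q = r - Λ + i := by ring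
  have g2 : r - (q : ℤ) - Λ + i + Λ = r - q + i := by ring
  rw [g1] at f1
  rw [g2] at f2
  rw [← f1, f2]

end

end Pool.Agent.H68.MW
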