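import Pool.Agent.H68.MW.Run

/-! # Long runs: periodic states, images of long runs have short periods -/

set_option autoImplicit false

namespace Pool.Agent.H68.MW

theorem exists_uniform_period {S : Type} [Finite S] (f : S → S) :
    ∃ a p : ℕ, 0 < p ∧ ∀ s, f^[p] (f^[a] s) = f^[a] s := by
  obtain ⟨a, b, hab, h⟩ := Finite.exists_ne_map_eq_of_infinite (fun k : ℕ => f^[k])
  wlog hlt : a < b generalizing a b
  · exact this b a hab.symm h.symm (lt_of_le_of_ne (not_lt.1 hlt) hab.symm)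
  refine ⟨a, b - a, by omega, fun s => ?_⟩
  rw [← Function.iterate_add_apply, Nat.sub_add_cancel hlt.le, ← h]

section
variable {B : Type} [Fintype B] {τ : B → List B} {v : ℤ → B} {c : ℤ → ℤ}

theorem ancB (hτ : Irred τ) (h : Img τ v v c) {K Λ P N P₀ : ℕ}
    (hK : ∀ x, 2 * (K : ℤ) ≤ c (x + K) - c x) (hD : tl τ ≤ K) 
    (hΛ0 : 0 < Λ) (hΛK : K ≤ Λ) (hΛ : ∀ π : ℕ, 0 < π → π ≤ P → π ∣ Λ) (hP : P₀ ≤ P)
    (hanc : AncEnd τ v v c (tl τ) N P₀) (j : ℕ) :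
    ∀ m₁ : ℕ, P + (tl τ) * Λ + K + Λ ≤ m₁ → ∃ g : ℕ, m₁ ≤ g ∧ ∀ (π : ℕ) (r : ℤ), REnd v P g π r →
      ∃ (π' : ℕ) (r' : ℤ), REnd v P m₁ π' r' ∧
        (FF v c (tl τ) K)^[j] (stt v K r' (r' - Λ)) = stt v K r (r - Λ) := by
  induction j with
  | zero =>
    intro m₁ _
    exact ⟨m₁, le_rfl, fun π r hr => ⟨π, r, hr, rfl⟩⟩
  | succ j ih =>
    intro m₁ hm₁
    obtain ⟨g, hg1, hg⟩ := ih m₁ hm₁
    refine ⟨N * (P + 1) + (tl τ) * g + P + tl τ + g, by omega, fun π r hr => ?_⟩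
    obtain ⟨π₁, r₁, h1, h2⟩ := ancA hτ h hK hD hΛ0 hΛK hΛ hP hanc hr g (by omega) (by omega)
    obtain ⟨π', r', h3, h4⟩ := hg π₁ r₁ h1
    refine ⟨π', r', h3, ?_⟩
    rw [Function.iterate_succ_apply', h4, h2]

/-- the state at the end of a long run is periodic under the evolution, and the image of a long
run is a run with period `≤ P` -/
theorem ancC (hτ : Irred τ) (h : Img τ v v c) {K Λ P N P₀ : ℕ}
    (hK : ∀ x, 2 * (K : ℤ) ≤ c (x + K) - c x) (hD : tl τ ≤ K) (hKP : (tl τ) * P + P ≤ K)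
    (hΛ0 : 0 < Λ) (hΛK : K ≤ Λ) (hΛ : ∀ π : ℕ, 0 < π → π ≤ P → π ∣ Λ) (hP : P₀ ≤ P)
    (hanc : AncEnd τ v v c (tl τ) N P₀) :
    ∃ p H : ℕ, 0 < p ∧ P + (tl τ) * Λ + K + Λ ≤ H ∧
      ∀ (m π : ℕ) (r : ℤ), H ≤ m → REnd v P m π r →
      (FF v c (tl τ) K)^[p] (stt v K r (r - Λ)) = stt v K r (r - Λ) ∧
      ∃ δ π' : ℕ, Fk v v c (tl τ) r (r - Λ) δ ∧ 0 < π' ∧ π' ≤ P ∧
        Per v π' (c (r - m)) (c r + δ) ∧ v (c r + δ) ≠ v (c r + δ - π') ∧
        FF v c (tl τ) K (stt v K r (r - Λ)) = stt v K (c r + δ) (c r + δ - Λ) := by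
  classical
  obtain ⟨a, p, hp, hap⟩ := exists_uniform_period (FF v c (tl τ) K)
  obtain ⟨g₁, hg₁, hg₁'⟩ := ancB hτ h hK hD hΛ0 hΛK hΛ hP hanc a (P + (tl τ) * Λ + K + Λ) le_rfl
  -- periodicity of the states
  have hper : ∀ (m π : ℕ) (r : ℤ), g₁ ≤ m → REnd v P m π r →
      (FF v c (tl τ) K)^[p] (stt v K r (r - Λ)) = stt v K r (r - Λ) := by
    intro m π r hm hr
    obtain ⟨π', r', -, h2⟩ := hg₁' π r (hr.mono hm)
    rw [← h2]
    exact hap _
  obtain ⟨g₂, hg₂, hg₂'⟩ := ancB hτ h hK hD hΛ0 hΛK hΛ hP hanc (p - 1) g₁ hg₁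
  refine ⟨p, g₂, hp, by omega, fun m π r hm hr => ⟨hper m π r (by omega) hr, ?_⟩⟩
  obtain ⟨π', r', hr', hst⟩ := hg₂' π r (hr.mono hm)
  have hF : FF v c (tl τ) K (stt v K r (r - Λ)) = stt v K r' (r' - Λ) := by
    rw [← hst, ← Function.iterate_succ_apply' (FF v c (tl τ) K)]
    rw [show (p - 1).succ = p by omega]
    exact hper g₁ π' r' le_rfl hr'
  have hlam := hr.lam (hΛ π hr.1 hr.2.1) (by omega) hΛ0
  obtain ⟨δ, b1, b2, b3⟩ := h.delta hτ hlam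
  have hFk : Fk v v c (tl τ) r (r - Λ) δ := ⟨hlam, b1, b2, b3⟩
  have hFF := FF_eq h hK hD hFk
  obtain ⟨q, q1, q2, q3, q4, q5⟩ := h.end_image (π := Λ) (x := r - m) (r := r)
    (hr.2.2.1.dvd (hΛ π hr.1 hr.2.1)) (by omega) b2 b3
  obtain ⟨δ₁, d1, d2, d3⟩ := h.delta hτ hr.2.2.2
  have hπP := hr.2.1
  obtain ⟨q₁, s1, s2, s3, s4, s5⟩ := h.end_image (π := π) (x := r - m) (r := r)
    hr.2.2.1 (by omega) d2 d3
  have hqle : (q : ℤ) ≤ (tl τ : ℤ) * Λ := by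
    have := h.add_le' (r - m) Λ
    rw [mul_comm] at this
    omega
  have hq₁le : (q₁ : ℤ) ≤ (tl τ : ℤ) * P := by
    have := h.add_le' (r - m) π
    have h2 : (π : ℤ) * tl τ ≤ (tl τ : ℤ) * P := by
      rw [mul_comm]
      exact mul_le_mul_of_nonneg_left (by exact_mod_cast hπP) (by positivity)
    omega
  have hcr : c (r - m) + m ≤ c r := by
    have := h.add_le (r - m) m
    rwa [sub_add_cancel] at this
  have hmm : ((P + (tl τ) * Λ + K + Λ : ℕ) : ℤ) ≤ m := by exact_mod_cast (show _ ≤ m by omega)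
  push_cast at hmm
  have hKP' : (((tl τ) * P + P : ℕ) : ℤ) ≤ K := by exact_mod_cast hKP
  push_cast at hKP'
  have hq0 : 0 < q := by omega
  have hq₁0 : 0 < q₁ := by have := hr.1; omega
  have hKΛ : (K : ℤ) ≤ Λ := by exact_mod_cast hΛK
  have hPnn : (0 : ℤ) ≤ (P : ℤ) := by positivity
  have hδδ : c r + (δ₁ : ℤ) = c r + δ := by
    refine perEnd_eq (x := c (r - m)) hq₁0 hq0 s4 s5 q4 q5 ?_ ?_
    · linarith
    · linarith
  rw [hδδ] at s4 s5
  refine ⟨δ, π', hFk, hr'.1, hr'.2.1, ?_⟩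
  have hπ'P : (π' : ℤ) ≤ P := by exact_mod_cast hr'.2.1
  -- the window in the image has period `π'`
  rw [hFF] at hF
  have hF2 := (stt_eq_iff.1 hF).2
  set R := c r + (δ : ℤ) with hR
  have hw : c (r - Λ) + (δ : ℤ) = R - q := by omega
  have hwin : Per v π' (R - q) (R - q + q₁ + π') := by
    intro i hi hi'
    have e1 := hF2 (i - (R - q)).toNat (by omega)
    have e2 := hF2 (i + π' - (R - q)).toNat (by omega)
    rw [hw] at e1 e2
    have a1 : R - (q : ℤ) + ((i - (R - q)).toNat : ℤ) = i := by omega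
    have a2 : R - (q : ℤ) + ((i + π' - (R - q)).toNat : ℤ) = i + π' := by omega
    rw [a1] at e1
    rw [a2] at e2
    rw [e1, e2]
    have := hr'.2.2.1 (r' - Λ + ((i - (R - q)).toNat : ℤ)) (by omega) (by omega)
    rw [this]
    congr 1
    omega
  have hnew : Per v π' (c (r - m)) R :=
    s4.upgrade hq₁0 hwin (by linarith) (by linarith)
  refine ⟨hnew, ?_, ?_⟩
  · have e1 := hnew (R - q₁ - π') (by linarith) (by have := hr'.1; omega)
    have e2 := s4 (R - q₁ - π') (by linarith) (by have := hr'.1; omega)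
    have a1 : R - (q₁ : ℤ) - π' + π' = R - q₁ := by ring
    have a2 : R - (q₁ : ℤ) - π' + q₁ = R - π' := by ring
    rw [a1] at e1
    rw [a2] at e2
    rw [← e2, e1]
    exact s5
  · rw [hFF, stt_eq_iff]
    refine ⟨fun i _ => rfl, fun i hi => ?_⟩
    rw [hw]
    have hLam : Per v Λ (c (r - m)) R := hnew.dvd (hΛ π' hr'.1 hr'.2.1)
    have f1 := q4 (R - q - Λ + i) (by linarith) (by omega)
    have f2 := hLam (R - q - Λ + i) (by linarith) (by omega)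
    have g1 : R - (q : ℤ) - Λ + i + q = R - Λ + i := by ring
    have g2 : R - (q : ℤ) - Λ + i + Λ = R - q + i := by ring
    rw [g1] at f1
    rw [g2] at f2
    rw [← f1, f2]

end

end Pool.Agent.H68.MW
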