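import Pool.Agent.H68.MW.Img

/-! # Recognisability and fork pairs -/

set_option autoImplicit false

namespace Pool.Agent.H68.MW

theorem tl_pos {B A : Type} [Fintype B] {θ : B → List A} (hne : ∀ b, θ b ≠ []) (b : B) :
    0 < tl θ :=
  lt_of_lt_of_le (List.length_pos_iff.2 (hne b)) (length_le_tl θ b)

/-- **SYNC** (recognisability of irreducible morphisms for aperiodic words): two occurrences of a
word of length `n` in an image either share a cut, or the reading of the first one is periodic with
a short period, up to `N` letters at the ends. -/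
theorem sync {B A : Type} [Fintype B] {θ : B → List A} (hirr : Irred θ) :
    ∃ N P : ℕ, ∀ (v : ℤ → B) (U : ℤ → A) (c : ℤ → ℤ), Img θ v U c →
    ∀ (e e' : ℤ) (n : ℕ), (∀ i : ℕ, i < n → U (e - n + i) = U (e' - n + i)) →
      (∃ (a a' : ℤ) (t : ℕ), t ≤ n ∧ c a = e - t ∧ c a' = e' - t) ∨
      (∃ a₁ a₂ : ℤ, a₁ < a₂ ∧ c a₂ - c a₁ ≤ P ∧ e - n ≤ c a₁ ∧ c a₁ ≤ e - n + N ∧
        ∀ i : ℕ, c (a₂ + i + 1) ≤ e - N → v (a₁ + i) = v (a₂ + i)) := by
  classical
  set W := Fintype.card (B × Fin (tl θ + 1)) with hW
  refine ⟨(W + 2) * tl θ + 2 * tl θ, (W + 1) * tl θ, ?_⟩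
  intro v U c h e e' n hcomm
  by_contra hcon
  push Not at hcon
  obtain ⟨hcut, hper⟩ := hcon
  have htlpos : 0 < tl θ := tl_pos h.ne (v 0)
  -- first cut in the window
  obtain ⟨m, hm1, hm2⟩ := h.exists_block (e - n - 1)
  set a₀ := m + 1 with ha₀
  have ha₀1 : e - n ≤ c a₀ := by omega
  have ha₀2 : c a₀ ≤ e - n + tl θ := by
    have := h.step_le m
    rw [← ha₀] at this
    omega
  by_cases hsmall : (n : ℤ) < (W + 2) * tl θ
  · -- short windows: vacuous alternative
    have h3 := h.step_le a₀
    obtain ⟨i, hi, -⟩ := hper a₀ (a₀ + 1) (by omega)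
      (by
        push_cast
        have : (tl θ : ℤ) ≤ (W + 1) * tl θ := by
          have : (0 : ℤ) ≤ W * tl θ := by positivity
          linarith
        linarith) ha₀1
      (by
        push_cast
        have : (0 : ℤ) ≤ (W + 2) * tl θ := by positivity
        linarith)
    have h1 := h.strictMono (show a₀ < a₀ + 1 + i + 1 by omega)
    push_cast at hi
    have : (0 : ℤ) < tl θ := by exact_mod_cast htlpos
    linarith
  push Not at hsmall
  -- the second reading
  set s := e' - e with hs
  set U₂ : ℤ → A := fun x => U (x + s) with hU₂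
  set c₂ : ℤ → ℤ := fun x => c x - s with hc₂
  have h₂ : Img θ v U₂ c₂ := h.shift s
  have hUU : ∀ x, e - n ≤ x → x < e → U x = U₂ x := by
    intro x hx hx'
    have := hcomm (x - (e - n)).toNat (by omega)
    rw [Int.toNat_of_nonneg (by omega)] at this
    simp only [hU₂]
    have e1 : e - (n : ℤ) + (x - (e - n)) = x := by ring
    have e2 : e' - (n : ℤ) + (x - (e - n)) = x + s := by rw [hs]; ring
    rw [e1, e2] at this
    exact this
  have hcut' : ∀ a b, e - n ≤ c a → c a ≤ e → c a ≠ c₂ b := by
    intro a b ha hb heq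
    refine hcut a b (e - c a).toNat (by omega) (by omega) ?_
    simp only [hc₂] at heq
    omega
  -- the blocks of the second reading containing the cuts of the first one
  have hblk : ∀ j : ℕ, j ≤ W → ∃ b : ℤ, c₂ (b - 1) < c (a₀ + j) ∧ c (a₀ + j) < c₂ b := by
    intro j hj
    obtain ⟨b, hb1, hb2⟩ := h₂.exists_block (c (a₀ + j))
    refine ⟨b + 1, ?_, hb2⟩
    rw [add_sub_cancel_right]
    refine lt_of_le_of_ne hb1 (fun heq => ?_)
    have h1 := h.add_le a₀ j
    have h2 := h.add_le' a₀ j
    refine hcut' (a₀ + j) b (by omega) ?_ heq.symm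
    have : (j : ℤ) * tl θ ≤ W * tl θ := by
      apply mul_le_mul_of_nonneg_right (by exact_mod_cast hj) (by positivity)
    nlinarith
  choose! b hb1 hb2 using hblk
  have hub : ∀ j : ℕ, j ≤ W → c (a₀ + j) ≤ e - n + (W + 1) * tl θ := by
    intro j hj
    have h2 := h.add_le' a₀ j
    have : (j : ℤ) * tl θ ≤ W * tl θ := by
      apply mul_le_mul_of_nonneg_right (by exact_mod_cast hj) (by positivity)
    nlinarith
  have hlen : ∀ j : ℕ, j ≤ W → (c₂ (b j) - c (a₀ + j)).toNat ≤ tl θ := by
    intro j hj
    have := h₂.step_le (b j - 1)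
    rw [sub_add_cancel] at this
    have := hb1 j hj
    omega
  let st : Fin (W + 1) → B × Fin (tl θ + 1) := fun j =>
    (v (b j - 1), ⟨(c₂ (b j) - c (a₀ + j)).toNat, by
      have := hlen j (by omega)
      omega⟩)
  obtain ⟨j₁, j₂, hne, hst⟩ := Fintype.exists_ne_map_eq_of_card_lt st (by
    rw [Fintype.card_fin]; omega)
  wlog hlt : j₁ < j₂ generalizing j₁ j₂
  · exact this j₂ j₁ (Ne.symm hne) hst.symm (lt_of_le_of_ne (not_lt.1 hlt) (Ne.symm hne))
  have hlt' : (j₁ : ℕ) < (j₂ : ℕ) := hlt
  have hj1 : (j₁ : ℕ) ≤ W := by omega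
  have hj2 : (j₂ : ℕ) ≤ W := by omega
  simp only [st, Prod.mk.injEq, Fin.mk.injEq] at hst
  obtain ⟨hst1, hst2⟩ := hst
  set ℓ := (c₂ (b j₁) - c (a₀ + j₁)).toNat with hℓ
  have hc1 : c₂ (b j₁) = c (a₀ + j₁) + ℓ := by
    have := hb2 j₁ hj1
    omega
  have hc2 : c₂ (b j₂) = c (a₀ + j₂) + ℓ := by
    have := hb2 j₂ hj2
    omega
  have hℓpos : 0 < ℓ := by
    have := hb2 j₁ hj1
    omega
  have hℓle : ℓ ≤ tl θ := hlen j₁ hj1
  have hu1 := hub j₁ hj1
  have hu2 := hub j₂ hj2
  have hlo1 := h.add_le a₀ j₁
  have hlo2 := h.add_le a₀ j₂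
  have hmono : c (a₀ + j₁) < c (a₀ + j₂) := h.strictMono (by omega)
  have hrun := det_run hirr (e - n) e (e - c (a₀ + j₂)).toNat v v U U₂ c c₂ h h₂ hUU hcut'
    (a₀ + j₁) (a₀ + j₂) (b j₁) (b j₂) ℓ (by omega) (by omega) hc1 hc2 hℓpos (hlen j₁ hj1)
    (by
      intro i hi
      have hv : ∀ (j : ℕ), j ≤ W → c₂ (b j) = c (a₀ + j) + ℓ → ∀ h' : (θ (v (b j - 1))).length - ℓ + i
          < (θ (v (b j - 1))).length, U (c (a₀ + j) + i) = (θ (v (b j - 1)))[(θ (v (b j - 1))).length - ℓ + i] := by
        intro j hj hcj h'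
        have h1 := h.add_le a₀ j
        have h2 := hub j hj
        have h3 := hlen j hj
        have h6 : (i : ℤ) < tl θ := by exact_mod_cast lt_of_lt_of_le hi hℓle
        have h7 : ((W : ℤ) + 1) * tl θ + tl θ = (W + 2) * tl θ := by ring
        rw [hUU _ (by omega) (by linarith)]
        rw [← h₂.val (b j - 1) _ h']
        congr 1
        have h4 := h₂.step (b j - 1)
        rw [sub_add_cancel] at h4
        have h5 := hb1 j hj
        push_cast [Nat.cast_sub (by omega : ℓ ≤ (θ (v (b j - 1))).length)]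
        omega
      have h4 := h₂.step (b j₁ - 1)
      rw [sub_add_cancel] at h4
      have h5 := hb1 j₁ hj1
      have h4' := h₂.step (b j₂ - 1)
      rw [sub_add_cancel] at h4'
      have h5' := hb1 j₂ hj2
      rw [hv j₁ hj1 hc1 (by omega), hv j₂ hj2 hc2 (by omega)]
      simp only [hst1])
    (by omega)
  obtain ⟨i, hi, hi2⟩ := hper (a₀ + j₁) (a₀ + j₂) (by omega)
    (by push_cast; nlinarith) (by omega) (by push_cast; nlinarith)
  exact hi2 (hrun.1 i (by push_cast at hi; nlinarith))

/-- the images from a fork pair diverge quickly -/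
theorem Img.delta {B A : Type} [Fintype B] {θ : B → List A} (hirr : Irred θ)
    {v : ℤ → B} {U : ℤ → A} {c : ℤ → ℤ} (h : Img θ v U c) {x y : ℤ} (hxy : v x ≠ v y) :
    ∃ δ : ℕ, δ < tl θ ∧ (∀ i : ℕ, i < δ → U (c x + i) = U (c y + i)) ∧
      U (c x + δ) ≠ U (c y + δ) := by
  classical
  have hex : ∃ i : ℕ, U (c x + i) ≠ U (c y + i) := by
    by_contra hcon
    push Not at hcon
    have := hirr.delay (v x) (v y) (win v (x + 1) (tl θ)) (win v (y + 1) (tl θ)) hxy
      (win U (c x) (tl θ))
      (by
        rw [← win_succ, h.win_image, win_prefix_iff]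
        have hlen := h.add_le x (tl θ + 1)
        refine ⟨by simp only [length_win]; omega, fun i hi' => ?_⟩
        rw [getElem_win])
      (by
        rw [← win_succ, h.win_image, win_prefix_iff]
        have hlen := h.add_le y (tl θ + 1)
        refine ⟨by simp only [length_win]; omega, fun i hi' => ?_⟩
        rw [getElem_win, hcon])
    simp at this
  refine ⟨Nat.find hex, ?_, fun i hi => not_not.1 (Nat.find_min hex hi), Nat.find_spec hex⟩
  have hmin : ∀ i : ℕ, i < Nat.find hex → U (c x + i) = U (c y + i) :=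
    fun i hi => not_not.1 (Nat.find_min hex hi)
  have := hirr.delay (v x) (v y) (win v (x + 1) (Nat.find hex)) (win v (y + 1) (Nat.find hex)) hxy
      (win U (c x) (Nat.find hex))
      (by
        rw [← win_succ, h.win_image, win_prefix_iff]
        have hlen := h.add_le x (Nat.find hex + 1)
        refine ⟨by simp only [length_win]; omega, fun i hi' => ?_⟩
        rw [getElem_win])
      (by
        rw [← win_succ, h.win_image, win_prefix_iff]
        have hlen := h.add_le y (Nat.find hex + 1)
        refine ⟨by simp only [length_win]; omega, fun i hi' => ?_⟩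
        rw [getElem_win, hmin i hi'])
  simpa using this

/-- a fork pair of the image with a common cut to its left comes from a fork pair -/
theorem Img.parent {B A : Type} [Fintype B] {θ : B → List A} (hirr : Irred θ)
    {v : ℤ → B} {U : ℤ → A} {c : ℤ → ℤ} (h : Img θ v U c) {e e' : ℤ} (hee : U e ≠ U e') (t : ℕ) :
    ∀ (a a' : ℤ), c a = e - t → c a' = e' - t →
    (∀ i : ℕ, i < t → U (e - t + i) = U (e' - t + i)) →
    ∃ (α α' : ℤ) (δ : ℕ), a ≤ α ∧ v α ≠ v α' ∧ c α + δ = e ∧ c α' + δ = e' ∧ δ < tl θ ∧ δ ≤ t := by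
  induction t using Nat.strong_induction_on with
  | _ t ih =>
    intro a a' ha ha' hcomm
    by_cases hv : v a = v a'
    · set l := (θ (v a)).length with hl
      have hlpos : 0 < l := List.length_pos_iff.2 (h.ne _)
      have h1 := h.step a
      have h2 := h.step a'
      rw [← hv, ← hl] at h2
      rw [← hl] at h1
      by_cases hlt : l ≤ t
      · obtain ⟨α, α', δ, h3, h4, h5, h6, h7, h8⟩ := ih (t - l) (by omega) (a + 1) (a' + 1)
          (by push_cast [Nat.cast_sub hlt]; omega) (by push_cast [Nat.cast_sub hlt]; omega)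
          (by
            intro i hi
            have := hcomm (l + i) (by omega)
            have e1 : e - ((t - l : ℕ) : ℤ) + i = e - t + ((l + i : ℕ) : ℤ) := by
              push_cast [Nat.cast_sub hlt]; ring
            have e2 : e' - ((t - l : ℕ) : ℤ) + i = e' - t + ((l + i : ℕ) : ℤ) := by
              push_cast [Nat.cast_sub hlt]; ring
            rw [e1, e2]; exact this)
        exact ⟨α, α', δ, by omega, h4, h5, h6, h7, by omega⟩
      · exfalso
        push Not at hlt
        apply hee
        have h3 := h.val a t (by omega)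
        have h4 := h.val a' t (by rw [← hv]; omega)
        have e1 : c a + (t : ℤ) = e := by omega
        have e2 : c a' + (t : ℤ) = e' := by omega
        rw [e1] at h3
        rw [e2] at h4
        rw [h3, h4]
        simp only [hv]
    · obtain ⟨δ, h1, h2, h3⟩ := h.delta hirr hv
      have hδ : δ = t := by
        rcases lt_trichotomy δ t with hlt | heq | hgt
        · exfalso
          apply h3
          have := hcomm δ hlt
          rw [ha, ha']; exact this
        · exact heq
        · exfalso
          apply hee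
          have := h2 t hgt
          rw [ha, ha'] at this
          simpa using this
      subst hδ
      exact ⟨a, a', δ, le_refl _, hv, by omega, by omega, h1, le_refl _⟩

end Pool.Agent.H68.MW
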